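import Pool.Agent.Lib.MP_452a87_nt.SpecD

/-! MP_452a87_nt: proof of `S_Ci2` (circuits). -/

set_option autoImplicit false

namespace Pool.Agent.SMQ

namespace Ci2Aux

/-- Algebraicity over the subalgebra gives algebraicity over the field. -/
theorem alg_of {S : Set ℂ} {z : ℂ} (h : IsAlgebraic (Algebra.adjoin ℚ S) z) :
    IsAlgebraic (IntermediateField.adjoin ℚ S) z :=
  IsAlgebraic.tower_top_of_subalgebra_le (B := (IntermediateField.adjoin ℚ S).toSubalgebra)
    (IntermediateField.algebra_adjoin_le_adjoin ℚ S) h

end Ci2Aux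

open Ci2Aux in
theorem pCi2 : S_Ci2 := by
  classical
  intro j v hv
  let P : Finset (Finset (Fin j)) → Prop := fun C =>
    (∀ A ∈ C, A.Nonempty) ∧ ¬ AlgebraicIndepOn ℚ v (C : Set (Finset (Fin j)))
  have h0 : (Finset.univ.filter P).Nonempty := by
    refine ⟨Finset.univ.filter Finset.Nonempty, ?_⟩
    rw [Finset.mem_filter]
    refine ⟨Finset.mem_univ _, fun A hA => (Finset.mem_filter.1 hA).2, fun hcon => hv ?_⟩
    have e : ∀ A : {A : Finset (Fin j) // A.Nonempty},
        A.1 ∈ ((Finset.univ.filter Finset.Nonempty : Finset (Finset (Fin j))) :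
          Set (Finset (Fin j))) := by
      intro A
      simpa using A.2
    exact AlgebraicIndependent.comp hcon (fun A : {A : Finset (Fin j) // A.Nonempty} =>
      (⟨A.1, e A⟩ : ((Finset.univ.filter Finset.Nonempty : Finset (Finset (Fin j))) :
          Set (Finset (Fin j))))) (by
        intro A A' h
        have h' := congrArg Subtype.val h
        exact Subtype.ext h')
  obtain ⟨C, hC, hmin⟩ := (Finset.univ.filter P).exists_min_image Finset.card h0
  obtain ⟨_, hC1, hC2⟩ := Finset.mem_filter.1 hC
  refine ⟨C, ?_, hC1, ?_⟩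
  · rw [Finset.nonempty_iff_ne_empty]
    rintro rfl
    apply hC2
    have : IsEmpty (((∅ : Finset (Finset (Fin j))) : Set (Finset (Fin j)))) := by
      rw [Finset.coe_empty]
      infer_instance
    exact algebraicIndependent_empty_type_iff.2 (algebraMap ℚ ℂ).injective
  · intro A0 hA0
    have h1 : AlgebraicIndepOn ℚ v ((C.erase A0 : Finset (Finset (Fin j))) :
        Set (Finset (Fin j))) := by
      by_contra hcon
      have h2 : C.erase A0 ∈ Finset.univ.filter P := by
        rw [Finset.mem_filter]
        exact ⟨Finset.mem_univ _, fun A hA => hC1 A (Finset.mem_of_mem_erase hA), hcon⟩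
      have h3 := hmin _ h2
      have h4 := Finset.card_erase_lt_of_mem hA0
      omega
    by_contra hcon
    apply hC2
    have h5 : Transcendental (Algebra.adjoin ℚ (v '' ((C.erase A0 : Finset (Finset (Fin j))) :
        Set (Finset (Fin j))))) (v A0) := fun h => hcon (alg_of h)
    have h6 := AlgebraicIndepOn.insert h1 h5
    rwa [← Finset.coe_insert, Finset.insert_erase hA0] at h6

end Pool.Agent.SMQ
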