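import Pool.Agent.Lib.MP_452a87_nt.SpecD

/-!
# 452a87, D/FB: the field of a tuple
-/

set_option autoImplicit false

namespace Pool.Agent.SMQ

namespace FBM

private lemma a_ne {m : ℕ} {r : Fin m → ℂ} {a : Fin m → ℤ} (hr : Rts r a) (l : Fin m) : a l ≠ 0 := by
  intro h0
  apply hr.2 {l} (Finset.singleton_nonempty l)
  rw [Finset.prod_singleton, h0]
  exact ⟨0, by norm_num⟩

private lemma rho_mul {m : ℕ} {r : Fin m → ℂ} {a : Fin m → ℤ} (hr : Rts r a)
    (X Y : Finset (Fin m)) :
    rho r X * rho r Y = ((∏ l ∈ X ∩ Y, a l : ℤ) : ℂ) * rho r (symmDiff X Y) := by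
  classical
  have h1 : X ∪ Y = symmDiff X Y ∪ (X ∩ Y) := by
    ext l
    simp only [Finset.mem_union, Finset.mem_symmDiff, Finset.mem_inter]
    tauto
  have h2 : Disjoint (symmDiff X Y) (X ∩ Y) := by
    rw [Finset.disjoint_left]
    intro l hl hl'
    rw [Finset.mem_symmDiff] at hl
    rw [Finset.mem_inter] at hl'
    tauto
  have h3 : rho r X * rho r Y = (∏ l ∈ X ∪ Y, r l) * ∏ l ∈ X ∩ Y, r l :=
    (Finset.prod_union_inter).symm
  have h4 : ∏ l ∈ X ∪ Y, r l = (∏ l ∈ symmDiff X Y, r l) * ∏ l ∈ X ∩ Y, r l := by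
    rw [h1, Finset.prod_union h2]
  have h5 : ((∏ l ∈ X ∩ Y, a l : ℤ) : ℂ) = (∏ l ∈ X ∩ Y, r l) * ∏ l ∈ X ∩ Y, r l := by
    rw [← Finset.prod_mul_distrib, Int.cast_prod]
    refine Finset.prod_congr rfl fun l _ => ?_
    rw [← hr.1 l, sq]
  rw [h3, h4, h5, rho]
  ring

private lemma prod_a_ne {m : ℕ} {r : Fin m → ℂ} {a : Fin m → ℤ} (hr : Rts r a)
    (X : Finset (Fin m)) : ((∏ l ∈ X, a l : ℤ) : ℂ) ≠ 0 := by
  rw [Int.cast_ne_zero]
  exact Finset.prod_ne_zero_iff.mpr fun l _ => a_ne hr l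

/-- The span. -/
private noncomputable def VV {j m : ℕ} (r : Fin m → ℂ) (x : Fin j → Finset (Fin m)) :
    Submodule ℚ ℂ :=
  Submodule.span ℚ (Set.range fun A : Finset (Fin j) => rho r (sd A x))

private lemma int_smul (V : Submodule ℚ ℂ) (n : ℤ) {z : ℂ} (hz : z ∈ V) : (n : ℂ) * z ∈ V := by
  have h := V.smul_mem (n : ℚ) hz
  rw [Algebra.smul_def] at h
  have h2 : algebraMap ℚ ℂ (n : ℚ) = (n : ℂ) := by
    rw [eq_ratCast]
    push_cast
    rfl
  rwa [h2] at h

private lemma sd_empty {j m : ℕ} (x : Fin j → Finset (Fin m)) : sd ∅ x = ∅ := by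
  ext l
  simp [sd]

private lemma one_mem_VV {j m : ℕ} (r : Fin m → ℂ) (x : Fin j → Finset (Fin m)) :
    (1 : ℂ) ∈ VV r x := by
  refine Submodule.subset_span ⟨∅, ?_⟩
  change rho r (sd ∅ x) = 1
  rw [sd_empty, rho, Finset.prod_empty]

open scoped Pointwise in
private lemma mul_mem_VV (h2 : S_Sdd) {j m : ℕ} {r : Fin m → ℂ} {a : Fin m → ℤ} (hr : Rts r a)
    (x : Fin j → Finset (Fin m)) (y z : ℂ) (hy : y ∈ VV r x) (hz : z ∈ VV r x) :
    y * z ∈ VV r x := by
  have h3 : VV r x * VV r x ≤ VV r x := by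
    have h4 : VV r x * VV r x = Submodule.span ℚ
        ((Set.range fun A : Finset (Fin j) => rho r (sd A x)) *
          (Set.range fun A : Finset (Fin j) => rho r (sd A x))) := Submodule.span_mul_span ℚ _ _
    rw [h4, Submodule.span_le]
    rintro _ ⟨_, ⟨A, rfl⟩, _, ⟨A', rfl⟩, rfl⟩
    change rho r (sd A x) * rho r (sd A' x) ∈ VV r x
    rw [rho_mul hr, ← h2.2.1]
    exact int_smul _ _ (Submodule.subset_span ⟨symmDiff A A', rfl⟩)
  exact h3 (Submodule.mul_mem_mul hy hz)

private lemma VV_le_KX (h2 : S_Sdd) {j m : ℕ} {r : Fin m → ℂ} {a : Fin m → ℤ} (hr : Rts r a)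
    (x : Fin j → Finset (Fin m)) (A : Finset (Fin j)) : rho r (sd A x) ∈ KX r x := by
  classical
  induction A using Finset.induction_on with
  | empty =>
    rw [sd_empty, rho, Finset.prod_empty]
    exact one_mem _
  | insert i A hi ih =>
    have h3 : insert i A = symmDiff {i} A := by
      ext l
      simp only [Finset.mem_insert, Finset.mem_symmDiff, Finset.mem_singleton]
      constructor
      · rintro (rfl | h)
        · exact Or.inl ⟨rfl, hi⟩
        · exact Or.inr ⟨h, fun h' => hi (h' ▸ h)⟩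
      · rintro (⟨h, _⟩ | ⟨h, _⟩)
        · exact Or.inl h
        · exact Or.inr h
    have h4 : rho r (x i) ∈ KX r x := IntermediateField.subset_adjoin ℚ _ ⟨i, rfl⟩
    have h5 : rho r (sd {i} x) * rho r (sd A x) =
        ((∏ l ∈ sd {i} x ∩ sd A x, a l : ℤ) : ℂ) * rho r (symmDiff (sd {i} x) (sd A x)) :=
      rho_mul hr _ _
    rw [h3, h2.2.1]
    have h6 : rho r (symmDiff (sd {i} x) (sd A x)) =
        ((∏ l ∈ sd {i} x ∩ sd A x, a l : ℤ) : ℂ)⁻¹ * (rho r (sd {i} x) * rho r (sd A x)) := by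
      rw [h5, inv_mul_cancel_left₀ (prod_a_ne hr _)]
    rw [h6, h2.2.2.2]
    exact mul_mem (inv_mem (intCast_mem _ _)) (mul_mem h4 ih)

private lemma mem_KX_iff (h2 : S_Sdd) {j m : ℕ} {r : Fin m → ℂ} {a : Fin m → ℤ} (hr : Rts r a)
    (x : Fin j → Finset (Fin m)) (z : ℂ) : z ∈ KX r x ↔ z ∈ VV r x := by
  constructor
  · let S : Subalgebra ℚ ℂ := (VV r x).toSubalgebra (one_mem_VV r x) (mul_mem_VV h2 hr x)
    have hfd : FiniteDimensional ℚ (VV r x) := by
      exact FiniteDimensional.span_of_finite ℚ (Set.finite_range _)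
    have hfd' : FiniteDimensional ℚ S := hfd
    let K : IntermediateField ℚ ℂ := S.toIntermediateField fun y hy =>
      S.inv_mem_of_algebraic (x := ⟨y, hy⟩)
        (((Algebra.IsIntegral.isIntegral (R := ℚ) (⟨y, hy⟩ : S)).isAlgebraic).algebraMap (A := ℂ))
    have h3 : KX r x ≤ K := by
      refine IntermediateField.adjoin_le_iff.mpr ?_
      rintro _ ⟨i, rfl⟩
      change rho r (x i) ∈ VV r x
      rw [← h2.2.2.2 j m x i]
      exact Submodule.subset_span ⟨{i}, rfl⟩
    exact fun h => h3 h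
  · intro h
    have h3 : VV r x ≤ (KX r x).toSubalgebra.toSubmodule := by
      refine Submodule.span_le.mpr ?_
      rintro _ ⟨A, rfl⟩
      exact VV_le_KX h2 hr x A
    exact h3 h

end FBM

open FBM in
theorem pFB (h1 : S_LIC) (h2 : S_Sdd) : S_FB := by
  classical
  intro j m r a x hr
  have hli := h1 m r a hr
  have hkx := mem_KX_iff h2 hr x
  refine ⟨?_, ?_, ?_⟩
  · intro X
    constructor
    · intro hX
      rw [hkx] at hX
      by_contra hcon
      have h3 : X ∉ Set.range fun A : Finset (Fin j) => sd A x := by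
        rintro ⟨A, hA⟩
        exact hcon ⟨A, hA.symm⟩
      apply hli.notMem_span_image h3
      rw [← Set.range_comp]
      exact hX
    · rintro ⟨A, rfl⟩
      exact VV_le_KX h2 hr x A
  · have h3 : Module.finrank ℚ (KX r x) = Module.finrank ℚ (VV r x) := by
      have h4 : (KX r x).toSubalgebra.toSubmodule = VV r x := by
        ext z
        exact hkx z
      rw [← h4]
      rfl
    have h4 : Module.finrank ℚ (VV r x) =
        (Finset.univ.image fun A : Finset (Fin j) => sd A x).card := by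
      have h5 : VV r x = Submodule.span ℚ (Set.range
          fun U : ((Finset.univ.image fun A : Finset (Fin j) => sd A x : Finset (Finset (Fin m)))) =>
            rho r (U : Finset (Fin m))) := by
        rw [VV]
        congr 1
        ext z
        constructor
        · rintro ⟨A, rfl⟩
          exact ⟨⟨sd A x, Finset.mem_image_of_mem _ (Finset.mem_univ A)⟩, rfl⟩
        · rintro ⟨⟨U, hU⟩, rfl⟩
          obtain ⟨A, -, rfl⟩ := Finset.mem_image.mp hU
          exact ⟨A, rfl⟩
      rw [h5, finrank_span_eq_card]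
      · exact Fintype.card_coe _
      · exact hli.comp _ Subtype.val_injective
    have h5 : (Finset.univ : Finset (Finset (Fin j))).card = 2 ^ j := by
      rw [Finset.card_univ, Fintype.card_finset, Fintype.card_fin]
    rw [h3, h4, ← h5, Finset.card_image_iff]
    constructor
    · intro hinj A hA h0
      have h6 : A = ∅ := hinj (Finset.mem_coe.mpr (Finset.mem_univ A))
        (Finset.mem_coe.mpr (Finset.mem_univ ∅)) (by
          change sd A x = sd ∅ x
          rw [h0, sd_empty])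
      exact hA.ne_empty h6
    · intro hfre A _ A' _ hAA
      change sd A x = sd A' x at hAA
      by_contra hne
      have h6 : (symmDiff A A').Nonempty := by
        rw [Finset.nonempty_iff_ne_empty]
        intro h0
        exact hne (symmDiff_eq_bot.mp h0)
      apply hfre _ h6
      rw [h2.2.1, hAA]
      exact symmDiff_self _
  · intro z hz
    rw [hkx] at hz
    obtain ⟨c, hc⟩ := (Submodule.mem_span_range_iff_exists_fun ℚ).mp hz
    refine ⟨c, ?_⟩
    rw [← hc]
    refine Finset.sum_congr rfl fun A _ => ?_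
    rw [Algebra.smul_def, eq_ratCast]

end Pool.Agent.SMQ
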