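import Pool.Agent.Lib.MP_452a87_nt.SpecD

/-!
# MP_452a87_nt, D/FC: subfields are spanned by the `rho r X` which they contain (helper59)
-/

set_option autoImplicit false

namespace Pool.Agent.SMQ

open MvPolynomial

namespace FCAux

theorem sd_single {m : ℕ} (A : Finset (Fin m)) :
    sd A (fun i : Fin m => ({i} : Finset (Fin m))) = A := by
  ext l
  unfold sd
  have : A.filter (fun i => l ∈ ({i} : Finset (Fin m))) = if l ∈ A then {l} else ∅ := by
    simp only [Finset.mem_singleton]
    exact Finset.filter_eq A l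
  rw [Finset.mem_filter, this]
  by_cases h : l ∈ A <;> simp [h]

/-- Square roots which are not in `K` are conjugate to their negatives. -/
theorem exists_hom (K : IntermediateField ℚ ℂ) (L : IntermediateField K ℂ)
    [Algebra.IsAlgebraic K L] (y : L) (N : ℤ) (hy : y ^ 2 = (N : L)) (hyK : (y : ℂ) ∉ K) :
    ∃ φ : L →ₐ[K] ℂ, φ y = -(y : ℂ) := by
  have hint : ∀ s : L, IsIntegral K s := fun s => Algebra.IsIntegral.isIntegral s
  have hmin : Polynomial.X ^ 2 - Polynomial.C (N : K) = minpoly K y := by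
    refine Polynomial.eq_of_monic_of_dvd_of_natDegree_le (minpoly.monic (hint y))
      (Polynomial.monic_X_pow_sub_C _ two_ne_zero) (minpoly.dvd _ _ ?_) ?_
    · rw [map_sub, map_pow, Polynomial.aeval_X, Polynomial.aeval_C, hy]
      simp
    · rw [Polynomial.natDegree_X_pow_sub_C]
      by_contra hlt
      have h0 : 0 < (minpoly K y).natDegree := minpoly.natDegree_pos (hint y)
      have h1 : (minpoly K y).natDegree = 1 := by omega
      rw [minpoly.natDegree_eq_one_iff] at h1
      obtain ⟨k, hk⟩ := h1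
      exact hyK (by
        rw [← hk]
        exact k.2)
  refine IntermediateField.exists_algHom_of_splits_of_aeval
    (fun s => ⟨hint s, IsAlgClosed.splits _⟩) ?_
  have hy' : (y : ℂ) ^ 2 = (N : ℂ) := by
    have := congrArg (fun x : L => (x : ℂ)) hy
    simpa using this
  rw [← hmin, map_sub, map_pow, Polynomial.aeval_X, Polynomial.aeval_C, neg_sq, hy']
  simp

end FCAux

open FCAux in
theorem pFC (hLIC : S_LIC) (hFB : S_FB) : S_FC := by
  classical
  intro m r a hr K hK z hz
  -- the coefficients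
  have hKX : KX r (fun i : Fin m => ({i} : Finset (Fin m))) =
      IntermediateField.adjoin ℚ (Set.range r) := by
    unfold KX rho
    simp only [Finset.prod_singleton]
  obtain ⟨c, hc⟩ := (hFB m m r a (fun i => {i}) hr).2.2 z (by
    rw [hKX]
    exact hK hz)
  simp only [sd_single] at hc
  refine ⟨c, hc, fun X hX => ?_⟩
  by_contra hXK
  have hli := hLIC m r a hr
  have hne : ∀ U, rho r U ≠ 0 := fun U => hli.ne_zero U
  -- the algebraic closure of `K`
  set L : IntermediateField K ℂ := algebraicClosure K ℂ with hL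
  have halg : ∀ l, r l ∈ L := by
    intro l
    rw [hL, mem_algebraicClosure_iff]
    refine ⟨Polynomial.X ^ 2 - Polynomial.C (a l : K),
      (Polynomial.monic_X_pow_sub_C _ two_ne_zero).ne_zero, ?_⟩
    rw [map_sub, map_pow, Polynomial.aeval_X, Polynomial.aeval_C, hr.1 l]
    simp
  set R : Fin m → L := fun l => ⟨r l, halg l⟩ with hR
  have hRr : ∀ l, (R l : ℂ) = r l := fun l => rfl
  have hR2 : ∀ l, R l ^ 2 = (a l : L) := by
    intro l
    apply Subtype.ext
    have := hr.1 l
    simpa using this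
  have hRp : ∀ U : Finset (Fin m), ((∏ l ∈ U, R l : L) : ℂ) = rho r U := by
    intro U
    unfold rho
    simp [hRr]
  obtain ⟨φ, hφ⟩ := exists_hom K L (∏ l ∈ X, R l) (∏ l ∈ X, a l) (by
    rw [← Finset.prod_pow, Finset.prod_congr rfl fun l _ => hR2 l]
    simp) (by
    rw [hRp]
    exact hXK)
  -- the signs
  have hs : ∀ l, ∃ e : ℚ, φ (R l) = (e : ℂ) * r l := by
    intro l
    have h1 : φ (R l) ^ 2 = r l ^ 2 := by
      rw [← map_pow, hR2, hr.1 l]
      simp
    rcases sq_eq_sq_iff_eq_or_eq_neg.1 h1 with h | h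
    · exact ⟨1, by rw [h]; simp⟩
    · exact ⟨-1, by rw [h]; simp⟩
  choose e he using hs
  have hE : ∀ U : Finset (Fin m), φ (∏ l ∈ U, R l) = ((∏ l ∈ U, e l : ℚ) : ℂ) * rho r U := by
    intro U
    rw [map_prod, Finset.prod_congr rfl fun l _ => he l, Finset.prod_mul_distrib]
    unfold rho
    simp
  have hEX : (∏ l ∈ X, e l : ℚ) = -1 := by
    have h1 := hE X
    rw [hφ, hRp] at h1
    have h2 : (((∏ l ∈ X, e l : ℚ) : ℂ) + 1) * rho r X = 0 := by
      linear_combination -h1
    rcases mul_eq_zero.1 h2 with h3 | h3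
    · have h4 : (((∏ l ∈ X, e l) + 1 : ℚ) : ℂ) = 0 := by
        rw [Rat.cast_add, Rat.cast_one]
        exact h3
      have h5 := Rat.cast_eq_zero.1 h4
      linarith
    · exact absurd h3 (hne X)
  -- `z` is fixed
  have hz1 : (⟨z, hz⟩ : K) = (⟨z, hz⟩ : K) := rfl
  have hzL : algebraMap K L ⟨z, hz⟩ = ∑ U, (c U : L) * ∏ l ∈ U, R l := by
    apply Subtype.ext
    rw [IntermediateField.coe_sum]
    simp only [MulMemClass.coe_mul, hRp]
    refine Eq.trans ?_ (hc.trans ?_)
    · rfl
    · refine Finset.sum_congr rfl fun U _ => ?_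
      simp
  have hz2 : z = ∑ U, ((c U * ∏ l ∈ U, e l : ℚ) : ℂ) * rho r U := by
    have h1 : φ (algebraMap K L ⟨z, hz⟩) = z := φ.commutes _
    rw [hzL, map_sum] at h1
    rw [← h1]
    refine Finset.sum_congr rfl fun U _ => ?_
    rw [map_mul, hE, Rat.cast_mul, mul_assoc]
    congr 1
    simp
  have hrel : ∑ U, (c U - c U * ∏ l ∈ U, e l) • rho r U = 0 := by
    have h1 : ∑ U, (((c U - c U * ∏ l ∈ U, e l : ℚ) : ℂ)) * rho r U = 0 := by
      have h2 : ∀ U, (((c U - c U * ∏ l ∈ U, e l : ℚ) : ℂ)) * rho r U =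
          (c U : ℂ) * rho r U - ((c U * ∏ l ∈ U, e l : ℚ) : ℂ) * rho r U := by
        intro U
        rw [Rat.cast_sub]
        ring
      rw [Finset.sum_congr rfl fun U _ => h2 U, Finset.sum_sub_distrib, ← hc, ← hz2, sub_self]
    rw [← h1]
    refine Finset.sum_congr rfl fun U _ => ?_
    rw [Algebra.smul_def]
    rfl
  have hcX := Fintype.linearIndependent_iff.1 hli (fun U => c U - c U * ∏ l ∈ U, e l) hrel X
  rw [hEX] at hcX
  exact hX (by linarith)

end Pool.Agent.SMQ
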