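import Pool.Agent.Lib.MP_452a87_nt.SpecD

/-!
# MP_452a87_nt, D/FD: every subfield of degree `2 ^ j` is the field of a free tuple (helper77)
-/

set_option autoImplicit false

namespace Pool.Agent.SMQ

namespace FDAux

theorem sd_map {e m : ℕ} (X : Finset (Fin m)) (x : Fin e → Finset (Fin m))
    (A : Finset (Fin e)) :
    sd (A.map (Fin.succEmb e)) (Fin.cons X x : Fin (e + 1) → Finset (Fin m)) = sd A x := by
  unfold sd
  ext l
  rw [Finset.mem_filter, Finset.mem_filter, Finset.filter_map, Finset.card_map]
  rfl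

theorem fre_cons (hS : S_Sdd) {e m : ℕ} (X : Finset (Fin m)) (x : Fin e → Finset (Fin m))
    (hx : Fre x) (hX : ∀ A, sd A x ≠ X) :
    Fre (Fin.cons X x : Fin (e + 1) → Finset (Fin m)) := by
  classical
  intro A' hA' h0
  set A : Finset (Fin e) := Finset.univ.filter (fun i => i.succ ∈ A') with hA
  by_cases h : (0 : Fin (e + 1)) ∈ A'
  · have h1 : A' = symmDiff {0} (A.map (Fin.succEmb e)) := by
      ext i
      refine Fin.cases ?_ (fun i => ?_) i
      · simp [Finset.mem_symmDiff, h]
      · simp [Finset.mem_symmDiff, hA, Fin.succ_ne_zero]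
    rw [h1, hS.2.1, hS.2.2.2, sd_map] at h0
    have h2 : X = sd A x := symmDiff_eq_bot.1 h0
    exact hX A h2.symm
  · have h1 : A' = A.map (Fin.succEmb e) := by
      ext i
      refine Fin.cases ?_ (fun i => ?_) i
      · simp [h]
      · simp [hA]
    rw [h1, sd_map] at h0
    rw [h1, Finset.map_nonempty] at hA'
    exact hx A hA' h0

/-- the number of the sets in the field -/
theorem card_ge (hFC : S_FC) {m : ℕ} {r : Fin m → ℂ} {a : Fin m → ℤ} (h : Rts r a)
    (K : IntermediateField ℚ ℂ) (hK : K ≤ IntermediateField.adjoin ℚ (Set.range r))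
    (G : Finset (Finset (Fin m))) (hG : ∀ X, rho r X ∈ K → X ∈ G) :
    Module.finrank ℚ K ≤ G.card := by
  classical
  let S : Finset ℂ := G.image (rho r)
  have hmem : ∀ z : K, K.val.toLinearMap z ∈ Submodule.span ℚ (S : Set ℂ) := by
    intro z
    obtain ⟨c, hc, hc'⟩ := hFC m r a h K hK z z.2
    have h1 : K.val.toLinearMap z = ∑ X, (c X : ℂ) * rho r X := hc
    rw [h1]
    refine Submodule.sum_mem _ fun X _ => ?_
    by_cases h2 : c X = 0
    · rw [h2, Rat.cast_zero, zero_mul]
      exact Submodule.zero_mem _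
    · have h3 : rho r X ∈ (S : Set ℂ) := by
        rw [Finset.mem_coe]
        exact Finset.mem_image_of_mem _ (hG X (hc' X h2))
      have h4 : (c X : ℂ) * rho r X = c X • rho r X := by
        rw [Rat.smul_def]
      rw [h4]
      exact Submodule.smul_mem _ _ (Submodule.subset_span h3)
  have hfin : FiniteDimensional ℚ (Submodule.span ℚ (S : Set ℂ)) :=
    FiniteDimensional.span_finset ℚ S
  have hinj : Function.Injective (LinearMap.codRestrict (Submodule.span ℚ (S : Set ℂ))
      K.val.toLinearMap hmem) := by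
    intro z w hzw
    have h5 := congrArg Subtype.val hzw
    exact Subtype.ext h5
  have h6 := LinearMap.finrank_le_finrank_of_injective hinj
  refine h6.trans ((finrank_span_finset_le_card S).trans ?_)
  exact Finset.card_image_le

end FDAux

open FDAux in
theorem pFD (hLIC : S_LIC) (hFB : S_FB) (hFC : S_FC) (hSdd : S_Sdd) : S_FD := by
  classical
  intro m j r a h K hK hdim
  let G : Finset (Finset (Fin m)) := Finset.univ.filter fun X => rho r X ∈ K
  have hG : ∀ X, X ∈ G ↔ rho r X ∈ K := fun X => by simp [G]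
  have hcard : 2 ^ j ≤ G.card := by
    rw [← hdim]
    exact card_ge hFC h K hK G fun X hX => (hG X).2 hX
  have key : ∀ e ≤ j, ∃ x : Fin e → Finset (Fin m), Fre x ∧ ∀ i, rho r (x i) ∈ K := by
    intro e
    induction e with
    | zero =>
      intro _
      refine ⟨Fin.elim0, ?_, fun i => i.elim0⟩
      rintro A ⟨i, _⟩
      exact i.elim0
    | succ e ih =>
      intro he
      obtain ⟨x, hx, hxK⟩ := ih (by omega)
      have h1 : ((Finset.univ : Finset (Finset (Fin e))).image fun A => sd A x).card < G.card := by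
        refine lt_of_le_of_lt Finset.card_image_le ?_
        rw [Finset.card_univ, Fintype.card_finset, Fintype.card_fin]
        exact lt_of_lt_of_le (Nat.pow_lt_pow_right (by norm_num) (by omega)) hcard
      obtain ⟨X, hXG, hX⟩ := Finset.exists_mem_notMem_of_card_lt_card h1
      refine ⟨Fin.cons X x, fre_cons hSdd X x hx fun A hA => hX ?_, fun i => ?_⟩
      · exact Finset.mem_image.2 ⟨A, Finset.mem_univ _, hA⟩
      · refine Fin.cases ?_ (fun i => ?_) i
        · exact (hG X).1 hXG
        · exact hxK i
  obtain ⟨x, hx, hxK⟩ := key j le_rfl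
  refine ⟨x, hx, ?_⟩
  have hle : KX r x ≤ K := by
    unfold KX
    rw [IntermediateField.adjoin_le_iff]
    rintro _ ⟨i, rfl⟩
    exact hxK i
  have hfd : FiniteDimensional ℚ K := Module.finite_of_finrank_pos (by rw [hdim]; positivity)
  have hd := ((hFB j m r a x h).2.1).2 hx
  exact (IntermediateField.eq_of_le_of_finrank_eq hle (hd.trans hdim.symm)).symm

end Pool.Agent.SMQ
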