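import Pool.Agent.Lib.MP_452a87_nt.SpecD

/-! MP_452a87_nt: proof of `S_FE` (the number of tuples of a field). -/

set_option autoImplicit false

namespace Pool.Agent.SMQ

open Finset in
theorem pFE (h1 : S_FB) (h2 : S_Sdd) : S_FE := by
  classical
  obtain ⟨_, hsym, hcomp, hsing⟩ := h2
  intro j
  have hpos : 1 ≤ Set.ncard {B : Fin j → Finset (Fin j) | Fre B} := by
    rw [Nat.one_le_iff_ne_zero, Ne, Set.ncard_eq_zero (Set.toFinite _), ← Ne,
      ← Set.nonempty_iff_ne_empty]
    refine ⟨fun i => {i}, ?_⟩
    intro A hA h0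
    obtain ⟨i, hi⟩ := hA
    have h3 : i ∈ sd A (fun i : Fin j => ({i} : Finset (Fin j))) := by
      unfold sd
      rw [mem_filter]
      refine ⟨mem_univ _, ?_⟩
      have e : A.filter (fun s => i ∈ ({s} : Finset (Fin j))) = {i} := by
        ext s
        simp only [mem_filter, mem_singleton]
        constructor
        · rintro ⟨_, h⟩
          exact h.symm
        · intro h
          rw [h]
          exact ⟨hi, rfl⟩
      rw [e, card_singleton]
      exact odd_one
    rw [h0] at h3
    exact absurd h3 (notMem_empty i)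
  refine ⟨_, hpos, ?_⟩
  intro m r a hr x0 hx0
  have hinj : ∀ A A' : Finset (Fin j), sd A x0 = sd A' x0 → A = A' := by
    intro A A' h
    by_contra hne
    have h3 : (symmDiff A A').Nonempty := by
      rw [nonempty_iff_ne_empty]
      intro h4
      exact hne (symmDiff_eq_bot.1 h4)
    apply hx0 _ h3
    rw [hsym, h, symmDiff_self]
    rfl
  have hfin0 : Module.finrank ℚ (KX r x0) = 2 ^ j := (h1 j m r a x0 hr).2.1.2 hx0
  have hfd : FiniteDimensional ℚ (KX r x0) :=
    Module.finite_of_finrank_pos (by rw [hfin0]; positivity)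
  have himg : {x : Fin j → Finset (Fin m) | KX r x = KX r x0} =
      (fun (B : Fin j → Finset (Fin j)) (i : Fin j) => sd (B i) x0) '' {B | Fre B} := by
    ext x
    constructor
    · intro hx
      have hx' : KX r x = KX r x0 := hx
      have h3 : ∀ i, ∃ A : Finset (Fin j), x i = sd A x0 := by
        intro i
        rw [← (h1 j m r a x0 hr).1 (x i), ← hx']
        exact IntermediateField.subset_adjoin ℚ _ ⟨i, rfl⟩
      choose B hB using h3
      have hxB : x = fun i => sd (B i) x0 := funext hB
      have hxF : Fre x := by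
        rw [← (h1 j m r a x hr).2.1, hx', hfin0]
      refine ⟨B, ?_, hxB.symm⟩
      intro A hA h0
      apply hxF A hA
      have h4 := hcomp j j m x0 B A
      rw [hxB, h4, h0]
      ext l
      simp [sd]
    · rintro ⟨B, hB, rfl⟩
      have hB' : Fre B := hB
      have hxF : Fre (fun i => sd (B i) x0) := by
        intro A hA
        rw [hcomp j j m x0 B A]
        exact hx0 _ (nonempty_iff_ne_empty.2 (hB' A hA))
      have hle : KX r (fun i => sd (B i) x0) ≤ KX r x0 := by
        refine IntermediateField.adjoin_le_iff.2 ?_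
        rintro _ ⟨i, rfl⟩
        exact ((h1 j m r a x0 hr).1 (sd (B i) x0)).2 ⟨B i, rfl⟩
      have hfin1 : Module.finrank ℚ (KX r (fun i => sd (B i) x0)) = 2 ^ j :=
        (h1 j m r a _ hr).2.1.2 hxF
      exact IntermediateField.eq_of_le_of_finrank_eq hle (by rw [hfin0, hfin1])
  rw [himg]
  refine Set.ncard_image_of_injOn ?_
  intro B _ B' _ h
  funext i
  exact hinj _ _ (congrFun h i)

end Pool.Agent.SMQ
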