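import Pool.Agent.Lib.MP_452a87_nt.SpecD

/-!
# MP_452a87_nt, D/FG: from a good free tuple to all generators
-/

set_option autoImplicit false

namespace Pool.Agent.SMQ

open MvPolynomial

namespace FGAux

/-- Elements of `ℚ(β)` are combinations of the powers `β ^ i`, `i < d`. -/
lemma powers {β : ℂ} {d : ℕ} (hd : 0 < d)
    (h : Module.finrank ℚ (IntermediateField.adjoin ℚ {β}) = d) {z : ℂ}
    (hz : z ∈ IntermediateField.adjoin ℚ {β}) :
    ∃ c : ℕ → ℚ, z = ∑ i ∈ Finset.range d, (c i : ℂ) * β ^ i := by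
  have hfin : FiniteDimensional ℚ (IntermediateField.adjoin ℚ {β}) :=
    Module.finite_of_finrank_pos (by omega)
  have hint : IsIntegral ℚ β :=
    (IsIntegral.of_finite ℚ (⟨β, IntermediateField.mem_adjoin_simple_self ℚ β⟩ :
      IntermediateField.adjoin ℚ {β})).map (IntermediateField.val _)
  have hdeg : (minpoly ℚ β).natDegree = d := by
    rw [← h, IntermediateField.adjoin.finrank hint]
  have hz' : z ∈ Algebra.adjoin ℚ {β} := by
    rw [← IntermediateField.adjoin_simple_toSubalgebra_of_isAlgebraic hint.isAlgebraic]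
    exact hz
  rw [Algebra.adjoin_singleton_eq_range_aeval] at hz'
  obtain ⟨p, hp⟩ := hz'
  have hmon : (minpoly ℚ β).Monic := minpoly.monic hint
  have h1 : Polynomial.aeval β (p %ₘ minpoly ℚ β) = z := by
    have h2 := Polynomial.modByMonic_add_div p (minpoly ℚ β)
    have h3 := congrArg (Polynomial.aeval β) h2
    rw [map_add, map_mul, minpoly.aeval, zero_mul, add_zero] at h3
    rw [h3]
    exact hp
  have h4 : (p %ₘ minpoly ℚ β).natDegree < d := by
    rw [← hdeg]
    exact Polynomial.natDegree_modByMonic_lt p hmon (minpoly.ne_one ℚ β)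
  refine ⟨fun i => (p %ₘ minpoly ℚ β).coeff i, ?_⟩
  rw [← h1, Polynomial.aeval_eq_sum_range' h4]
  refine Finset.sum_congr rfl fun i _ => ?_
  rw [Rat.smul_def]

/-- Common denominators. -/
lemma denom (d : ℕ) (c : ℕ → ℚ) :
    ∃ N : ℕ, 0 < N ∧ ∀ i ∈ Finset.range d, ∃ n : ℤ, (N : ℚ) * c i = n := by
  refine ⟨∏ i ∈ Finset.range d, (c i).den, Finset.prod_pos fun i _ => (c i).den_pos,
    fun i hi => ?_⟩
  obtain ⟨M, hM⟩ := Finset.dvd_prod_of_mem (fun i => (c i).den) hi
  refine ⟨(M : ℤ) * (c i).num, ?_⟩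
  rw [hM]
  push_cast
  have h1 : ((c i).den : ℚ) * c i = (c i).num := by
    rw [mul_comm]
    exact Rat.mul_den_eq_num (c i)
  calc ((c i).den : ℚ) * M * c i = M * (((c i).den : ℚ) * c i) := by ring
    _ = M * (c i).num := by rw [h1]

/-- Algebraicity of `exp (z L)`. -/
lemma alg {β L z : ℂ} {d : ℕ} (E : IntermediateField ℚ ℂ) (c : ℕ → ℚ)
    (hz : z = ∑ i ∈ Finset.range d, (c i : ℂ) * β ^ i)
    (h : ∀ i ∈ Finset.range d, IsAlgebraic E (Complex.exp (β ^ i * L))) :
    IsAlgebraic E (Complex.exp (z * L)) := by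
  obtain ⟨N, hN, hn⟩ := denom d c
  choose! n hn using hn
  have h1 : Complex.exp (z * L) ^ N =
      ∏ i ∈ Finset.range d, Complex.exp (β ^ i * L) ^ (n i) := by
    rw [← Complex.exp_nat_mul, hz, Finset.sum_mul, Finset.mul_sum, Complex.exp_sum]
    refine Finset.prod_congr rfl fun i hi => ?_
    rw [← Complex.exp_int_mul]
    congr 1
    have h2 : ((N : ℚ) * c i : ℚ) = n i := hn i hi
    have h3 : (N : ℂ) * (c i : ℂ) = (n i : ℂ) := by
      exact_mod_cast congrArg (fun q : ℚ => (q : ℂ)) h2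
    rw [← h3]
    ring
  refine IsAlgebraic.of_pow hN ?_
  rw [h1]
  have h4 : ∏ i ∈ Finset.range d, Complex.exp (β ^ i * L) ^ (n i) ∈ algebraicClosure E ℂ :=
    prod_mem fun i hi => zpow_mem (mem_algebraicClosure_iff.2 (h i hi)) _
  exact mem_algebraicClosure_iff.1 h4

end FGAux

open FGAux in
theorem pFG (_hLIC : S_LIC) (hFB : S_FB) (hTrE : S_TrE) (hTrI : S_TrI) : S_FG := by
  intro j m r a L x hra hL hx hbad β hβ
  obtain ⟨h1, h2, -⟩ := hFB j m r a x hra
  have hfr : Module.finrank ℚ (IntermediateField.adjoin ℚ {β}) = 2 ^ j := by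
    rw [hβ]
    exact h2.2 hx
  have hpos : 0 < 2 ^ j := Nat.pos_of_ne_zero (by positivity)
  let w : Fin (2 ^ j - 1) → ℂ := fun i => Complex.exp (β ^ ((i : ℕ) + 1) * L)
  show AlgebraicIndependent ℚ w
  let E : IntermediateField ℚ ℂ := IntermediateField.adjoin ℚ (Set.range w)
  have hE : ∀ i ∈ Finset.range (2 ^ j), IsAlgebraic E (Complex.exp (β ^ i * L)) := by
    intro i hi
    rw [Finset.mem_range] at hi
    rcases Nat.eq_zero_or_pos i with h0 | h0
    · rw [h0, pow_zero, one_mul]
      exact hL.tower_top E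
    · have hm : Complex.exp (β ^ i * L) ∈ E := by
        refine IntermediateField.subset_adjoin ℚ _ ⟨⟨i - 1, by omega⟩, ?_⟩
        show Complex.exp (β ^ (i - 1 + 1) * L) = _
        rw [Nat.sub_add_cancel h0]
      exact isAlgebraic_algebraMap (⟨_, hm⟩ : E)
  have hzA : ∀ A : Finset (Fin j), IsAlgebraic E (ths r L (sd A x)) := by
    intro A
    have hm : rho r (sd A x) ∈ IntermediateField.adjoin ℚ {β} := by
      rw [hβ]
      exact (h1 _).2 ⟨A, rfl⟩
    obtain ⟨c, hc⟩ := powers hpos hfr hm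
    exact alg E c hc hE
  have hind : AlgebraicIndependent ℚ
      (fun A : {A : Finset (Fin j) // A.Nonempty} => ths r L (sd A.1 x)) := not_not.1 hbad
  have hcard : Fintype.card {A : Finset (Fin j) // A.Nonempty} = 2 ^ j - 1 := by
    classical
    have e1 : Fintype.card {A : Finset (Fin j) // A.Nonempty} =
        Fintype.card {A : Finset (Fin j) // ¬ A = ∅} :=
      Fintype.card_congr (Equiv.subtypeEquivRight fun A => Finset.nonempty_iff_ne_empty)
    rw [e1, Fintype.card_subtype_compl, Fintype.card_finset, Fintype.card_fin,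
      Fintype.card_subtype_eq]
  let e : Fin (2 ^ j - 1) ≃ {A : Finset (Fin j) // A.Nonempty} :=
    (Fintype.equivFinOfCardEq hcard).symm
  have hind2 : AlgebraicIndependent ℚ
      ((fun A : {A : Finset (Fin j) // A.Nonempty} => ths r L (sd A.1 x)) ∘ e) :=
    hind.comp e e.injective
  obtain ⟨t, ht⟩ := hTrE (Fin (2 ^ j - 1)) ℂ w
  have h5 := (hTrI (Fin (2 ^ j - 1)) ℂ w t (2 ^ j - 1) _ ht hind2 fun i => hzA _).1
  obtain ⟨b, hb, -⟩ := ht
  have hbi : Function.Injective b := fun i i' h => hb.injective (congrArg w h)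
  have h6 : t ≤ 2 ^ j - 1 := by
    have := Fintype.card_le_of_injective b hbi
    rwa [Fintype.card_fin, Fintype.card_fin] at this
  have h7 : t = 2 ^ j - 1 := le_antisymm h6 h5
  have hbb : Function.Bijective b := by
    rw [Fintype.bijective_iff_injective_and_card]
    exact ⟨hbi, by rw [Fintype.card_fin, Fintype.card_fin, h7]⟩
  let eb := Equiv.ofBijective b hbb
  have h8 := hb.comp eb.symm eb.symm.injective
  have h9 : (w ∘ b) ∘ eb.symm = w := by
    funext i
    show w (eb (eb.symm i)) = w i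
    rw [Equiv.apply_symm_apply]
  rw [h9] at h8
  exact h8

end Pool.Agent.SMQ
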