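import Pool.Agent.Lib.MP_452a87_nt.SpecD

/-!
# 452a87, D/FR: generators of a multiquadratic field
-/

set_option autoImplicit false

namespace Pool.Agent.SMQ

open IntermediateField

namespace FRM

private lemma exists_finite (S : Set ℂ) [FiniteDimensional ℚ (adjoin ℚ S)] :
    ∃ T : Finset ℂ, (T : Set ℂ) ⊆ S ∧ adjoin ℚ (T : Set ℂ) = adjoin ℚ S := by
  classical
  let b := Module.finBasis ℚ (adjoin ℚ S)
  choose T hT hb using fun i => exists_finset_of_mem_adjoin (b i).2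
  have hTS : ((Finset.univ.biUnion T : Finset ℂ) : Set ℂ) ⊆ S := by
    intro z hz
    rw [Finset.mem_coe, Finset.mem_biUnion] at hz
    obtain ⟨i, -, hi⟩ := hz
    exact hT i hi
  refine ⟨Finset.univ.biUnion T, hTS, le_antisymm (adjoin.mono ℚ _ _ hTS) ?_⟩
  intro z hz
  have h1 : z = ∑ i, (b.repr ⟨z, hz⟩ i : ℚ) • (b i : ℂ) := by
    have h2 := congrArg (algebraMap (adjoin ℚ S) ℂ) (b.sum_repr ⟨z, hz⟩)
    rw [map_sum] at h2
    exact h2.symm
  rw [h1]
  refine sum_mem fun i _ => ?_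
  refine (adjoin ℚ ((Finset.univ.biUnion T : Finset ℂ) : Set ℂ)).toSubalgebra.smul_mem ?_ _
  have h2 : adjoin ℚ (T i : Set ℂ) ≤ adjoin ℚ ((Finset.univ.biUnion T : Finset ℂ) : Set ℂ) := by
    refine adjoin.mono ℚ _ _ ?_
    intro y hy
    rw [Finset.mem_coe, Finset.mem_biUnion]
    exact ⟨i, Finset.mem_univ i, hy⟩
  exact h2 (hb i)

private lemma exists_min (S : Set ℂ) [FiniteDimensional ℚ (adjoin ℚ S)] :
    ∃ T : Finset ℂ, (T : Set ℂ) ⊆ S ∧ adjoin ℚ (T : Set ℂ) = adjoin ℚ S ∧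
      ∀ s ∈ T, s ∉ adjoin ℚ ((T.erase s : Finset ℂ) : Set ℂ) := by
  classical
  obtain ⟨T0, hT0, hT0F⟩ := exists_finite S
  have hex : ∃ n, ∃ T : Finset ℂ, T.card = n ∧ (T : Set ℂ) ⊆ S ∧
      adjoin ℚ (T : Set ℂ) = adjoin ℚ S := ⟨_, T0, rfl, hT0, hT0F⟩
  obtain ⟨T, hTc, hT, hTF⟩ := Nat.find_spec hex
  refine ⟨T, hT, hTF, fun s hs hcon => ?_⟩
  have h1 : adjoin ℚ ((T.erase s : Finset ℂ) : Set ℂ) = adjoin ℚ S := by
    rw [← hTF]
    refine le_antisymm (adjoin.mono ℚ _ _ (by exact_mod_cast Finset.erase_subset s T)) ?_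
    rw [adjoin_le_iff]
    intro y hy
    by_cases hys : y = s
    · rw [hys]
      exact hcon
    · exact subset_adjoin ℚ _ (by exact_mod_cast Finset.mem_erase.mpr ⟨hys, by exact_mod_cast hy⟩)
  have h2 : Nat.find hex ≤ (T.erase s).card :=
    Nat.find_min' hex ⟨T.erase s, rfl, fun y hy => hT (Finset.mem_of_mem_erase
      (by exact_mod_cast hy)), h1⟩
  have h3 := Finset.card_erase_lt_of_mem hs
  omega

private lemma exists_rts (S : Set ℂ) (hS : ∀ x ∈ S, ∃ q : ℚ, x ^ 2 = (q : ℂ))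
    [FiniteDimensional ℚ (adjoin ℚ S)] :
    ∃ (k : ℕ) (r : Fin k → ℂ) (a : Fin k → ℤ), Rts r a ∧
      adjoin ℚ S = adjoin ℚ (Set.range r) := by
  classical
  obtain ⟨T, hT, hTF, hmin⟩ := exists_min S
  let e : Fin T.card ≃ T := T.equivFin.symm
  have hq : ∀ i, ∃ q : ℚ, (e i : ℂ) ^ 2 = (q : ℂ) := fun i => hS _ (hT (by exact_mod_cast (e i).2))
  choose q hq using hq
  let r : Fin T.card → ℂ := fun i => ((q i).den : ℂ) * (e i : ℂ)
  let a : Fin T.card → ℤ := fun i => (q i).num * (q i).den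
  have hden : ∀ i, ((q i).den : ℂ) ≠ 0 := fun i => by exact_mod_cast (q i).den_ne_zero
  have hsq : ∀ i, r i ^ 2 = (a i : ℂ) := by
    intro i
    have h1 : (q i : ℂ) * ((q i).den : ℂ) = ((q i).num : ℂ) := by
      have := Rat.mul_den_eq_num (q i)
      exact_mod_cast congrArg (fun z : ℚ => (z : ℂ)) this
    change (((q i).den : ℂ) * (e i : ℂ)) ^ 2 = (((q i).num * (q i).den : ℤ) : ℂ)
    rw [mul_pow, hq i]
    push_cast
    rw [← h1]
    ring
  have hK : ∀ i i', i' ≠ i → r i' ∈ adjoin ℚ ((T.erase (e i : ℂ) : Finset ℂ) : Set ℂ) := by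
    intro i i' hii
    refine mul_mem (_root_.natCast_mem _ _) (subset_adjoin ℚ _ ?_)
    rw [Finset.mem_coe, Finset.mem_erase]
    refine ⟨fun h => hii ?_, (e i').2⟩
    exact e.injective (Subtype.ext h)
  have hK' : ∀ i, r i ∉ adjoin ℚ ((T.erase (e i : ℂ) : Finset ℂ) : Set ℂ) := by
    intro i hi
    apply hmin (e i : ℂ) (e i).2
    have h1 : (e i : ℂ) = ((q i).den : ℂ)⁻¹ * r i := by
      change _ = ((q i).den : ℂ)⁻¹ * (((q i).den : ℂ) * (e i : ℂ))
      rw [inv_mul_cancel_left₀ (hden i)]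
    have h2 := mul_mem (inv_mem (_root_.natCast_mem
      (adjoin ℚ ((T.erase (e i : ℂ) : Finset ℂ) : Set ℂ)) (q i).den)) hi
    rwa [← h1] at h2
  have hr0 : ∀ i, r i ≠ 0 := fun i h => hK' i (by rw [h]; exact zero_mem _)
  refine ⟨T.card, r, a, ⟨hsq, ?_⟩, ?_⟩
  · rintro X ⟨i, hi⟩ ⟨c, hc⟩
    have h1 : (∏ l ∈ X, r l) ^ 2 = (c : ℂ) ^ 2 := by
      rw [← Finset.prod_pow]
      have h2 : ∏ l ∈ X, r l ^ 2 = ((∏ l ∈ X, a l : ℤ) : ℂ) := by
        rw [Int.cast_prod]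
        exact Finset.prod_congr rfl fun l _ => hsq l
      rw [h2, hc]
      push_cast
      ring
    have h3 : ∏ l ∈ X, r l ∈ adjoin ℚ ((T.erase (e i : ℂ) : Finset ℂ) : Set ℂ) := by
      rcases sq_eq_sq_iff_eq_or_eq_neg.mp h1 with h | h
      · rw [h]
        exact _root_.intCast_mem _ _
      · rw [h]
        exact neg_mem (_root_.intCast_mem _ _)
    have h4 : ∏ l ∈ X.erase i, r l ∈ adjoin ℚ ((T.erase (e i : ℂ) : Finset ℂ) : Set ℂ) :=
      prod_mem fun l hl => hK i l (Finset.ne_of_mem_erase hl)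
    have h5 : ∏ l ∈ X.erase i, r l ≠ 0 := Finset.prod_ne_zero_iff.mpr fun l _ => hr0 l
    apply hK' i
    have h6 : r i = (∏ l ∈ X, r l) * (∏ l ∈ X.erase i, r l)⁻¹ := by
      rw [← Finset.mul_prod_erase X r hi, mul_assoc, mul_inv_cancel₀ h5, mul_one]
    rw [h6]
    exact mul_mem h3 (inv_mem h4)
  · rw [← hTF]
    refine le_antisymm ?_ ?_
    · rw [adjoin_le_iff]
      intro y hy
      have h1 : y = ((q (e.symm ⟨y, by exact_mod_cast hy⟩)).den : ℂ)⁻¹ *
          r (e.symm ⟨y, by exact_mod_cast hy⟩) := by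
        change _ = (_ : ℂ)⁻¹ * (_ * (e (e.symm ⟨y, _⟩) : ℂ))
        rw [inv_mul_cancel_left₀ (hden _), e.apply_symm_apply]
      rw [h1]
      exact mul_mem (inv_mem (_root_.natCast_mem _ _)) (subset_adjoin ℚ _ ⟨_, rfl⟩)
    · rw [adjoin_le_iff]
      rintro _ ⟨i, rfl⟩
      exact mul_mem (_root_.natCast_mem _ _) (subset_adjoin ℚ _ (by exact_mod_cast (e i).2))

end FRM

open FRM in
theorem pFR (h1 : S_FB) : S_FR := by
  classical
  intro m S hS hfin
  have hfd : FiniteDimensional ℚ (adjoin ℚ S) :=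
    Module.finite_of_finrank_pos (by rw [hfin]; positivity)
  obtain ⟨k, r, a, hr, hF⟩ := exists_rts S hS
  have h2 : KX r (fun i : Fin k => ({i} : Finset (Fin k))) = adjoin ℚ (Set.range r) := by
    rw [KX]
    congr 1
    ext z
    constructor
    · rintro ⟨i, rfl⟩
      exact ⟨i, by simp [rho]⟩
    · rintro ⟨i, rfl⟩
      exact ⟨i, by simp [rho]⟩
  have h3 : Fre (fun i : Fin k => ({i} : Finset (Fin k))) := by
    rintro A ⟨i, hi⟩ h0
    have h4 : i ∈ sd A (fun i : Fin k => ({i} : Finset (Fin k))) := by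
      rw [sd, Finset.mem_filter]
      refine ⟨Finset.mem_univ i, ?_⟩
      have h5 : A.filter (fun i' => i ∈ ({i'} : Finset (Fin k))) = {i} := by
        ext l
        rw [Finset.mem_filter, Finset.mem_singleton, Finset.mem_singleton]
        constructor
        · rintro ⟨_, h⟩
          exact h.symm
        · rintro rfl
          exact ⟨hi, rfl⟩
      rw [h5, Finset.card_singleton]
      exact odd_one
    rw [h0] at h4
    exact absurd h4 (Finset.notMem_empty i)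
  have h4 := ((h1 k k r a (fun i : Fin k => ({i} : Finset (Fin k))) hr).2.1).mpr h3
  rw [h2, ← hF, hfin] at h4
  have h5 : m = k := Nat.pow_right_injective le_rfl h4
  subst h5
  exact ⟨r, a, hr, hF⟩

end Pool.Agent.SMQ
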