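import Pool.Agent.Lib.MP_452a87_nt.SpecD

/-! MP_452a87_nt: proof of `S_Sdd` (elementary rules for `sd`). -/

set_option autoImplicit false

namespace Pool.Agent.SMQ

namespace SddAux

open Finset

/-- Indicator with values in `ZMod 2`. -/
def bo (P : Prop) [Decidable P] : ZMod 2 := if P then 1 else 0

theorem bo_iff {P Q : Prop} [Decidable P] [Decidable Q] (h : bo P = bo Q) : P ↔ Q := by
  unfold bo at h
  by_cases hP : P <;> by_cases hQ : Q <;> simp [hP, hQ] at h ⊢

theorem mem_sd {j : ℕ} {κ : Type} [Fintype κ] [DecidableEq κ] (A : Finset (Fin j))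
    (x : Fin j → Finset κ) (l : κ) : l ∈ sd A x ↔ Odd (A.filter (fun i => l ∈ x i)).card := by
  unfold sd
  rw [mem_filter]
  exact and_iff_right (mem_univ l)

theorem bo_sd {j : ℕ} {κ : Type} [Fintype κ] [DecidableEq κ] (A : Finset (Fin j))
    (x : Fin j → Finset κ) (l : κ) : bo (l ∈ sd A x) = ∑ i, bo (i ∈ A) * bo (l ∈ x i) := by
  have h1 : ∑ i, bo (i ∈ A) * bo (l ∈ x i) = ((A.filter (fun i => l ∈ x i)).card : ZMod 2) := by
    rw [card_filter, Nat.cast_sum]
    have h2 : ∑ i, bo (i ∈ A) * bo (l ∈ x i) = ∑ i ∈ A, bo (l ∈ x i) := by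
      rw [← Finset.sum_filter_add_sum_filter_not univ (fun i => i ∈ A)]
      have h3 : ∑ i ∈ univ.filter (fun i => ¬ i ∈ A), bo (i ∈ A) * bo (l ∈ x i) = 0 := by
        refine Finset.sum_eq_zero fun i hi => ?_
        have : ¬ i ∈ A := (mem_filter.1 hi).2
        simp [bo, this]
      rw [h3, add_zero]
      have h4 : univ.filter (fun i => i ∈ A) = A := by
        ext i
        simp
      rw [h4]
      refine Finset.sum_congr rfl fun i hi => ?_
      simp [bo, hi]
    rw [h2]
    refine Finset.sum_congr rfl fun i _ => ?_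
    unfold bo
    split_ifs <;> simp
  rw [h1]
  unfold bo
  split_ifs with h
  · rw [mem_sd] at h
    exact (ZMod.natCast_eq_one_iff_odd.2 h).symm
  · rw [mem_sd, Nat.not_odd_iff_even] at h
    exact (ZMod.natCast_eq_zero_iff_even.2 h).symm

theorem bo_symmDiff {κ : Type} [DecidableEq κ] (X Y : Finset κ) (l : κ) :
    bo (l ∈ symmDiff X Y) = bo (l ∈ X) + bo (l ∈ Y) := by
  unfold bo
  by_cases h1 : l ∈ X <;> by_cases h2 : l ∈ Y
  · simp [mem_symmDiff, h1, h2]
    decide
  · simp [mem_symmDiff, h1, h2]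
  · simp [mem_symmDiff, h1, h2]
  · simp [mem_symmDiff, h1, h2]

theorem sd_symmDiff {j : ℕ} {κ : Type} [Fintype κ] [DecidableEq κ] (x : Fin j → Finset κ)
    (A A' : Finset (Fin j)) : sd (symmDiff A A') x = symmDiff (sd A x) (sd A' x) := by
  ext l
  apply bo_iff
  rw [bo_symmDiff, bo_sd, bo_sd, bo_sd, ← Finset.sum_add_distrib]
  refine Finset.sum_congr rfl fun i _ => ?_
  rw [bo_symmDiff, add_mul]

theorem sd_sd {j j' : ℕ} {κ : Type} [Fintype κ] [DecidableEq κ] (x : Fin j → Finset κ)
    (B : Fin j' → Finset (Fin j)) (A : Finset (Fin j')) :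
    sd A (fun i => sd (B i) x) = sd (sd A B) x := by
  ext l
  apply bo_iff
  rw [bo_sd, bo_sd]
  have h1 : ∀ i, bo (i ∈ A) * bo (l ∈ sd (B i) x) =
      ∑ t, bo (i ∈ A) * bo (t ∈ B i) * bo (l ∈ x t) := by
    intro i
    rw [bo_sd, Finset.mul_sum]
    exact Finset.sum_congr rfl fun t _ => (mul_assoc _ _ _).symm
  rw [Finset.sum_congr rfl fun i _ => h1 i, Finset.sum_comm]
  refine Finset.sum_congr rfl fun t _ => ?_
  rw [bo_sd, Finset.sum_mul]

theorem sd_singleton {j : ℕ} {κ : Type} [Fintype κ] [DecidableEq κ] (x : Fin j → Finset κ)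
    (i : Fin j) : sd {i} x = x i := by
  ext l
  rw [mem_sd, filter_singleton]
  by_cases h : l ∈ x i
  · simp [h]
  · simp [h]

end SddAux

open SddAux Finset in
theorem pSdd : S_Sdd := by
  refine ⟨?_, ?_, ?_, ?_⟩
  · intro j k m D a W A hD ha
    have hdis : ∀ t, Disjoint (sd A a) (D t) := by
      intro t
      rw [Finset.disjoint_left]
      intro l hl hlt
      rw [mem_sd] at hl
      have h0 : A.filter (fun i => l ∈ a i) = ∅ := by
        refine filter_eq_empty_iff.2 fun i _ hli => ?_
        exact Finset.disjoint_left.1 (ha i t) hli hlt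
      rw [h0, card_empty] at hl
      exact absurd hl (by decide)
    refine ⟨?_, hdis⟩
    ext l
    rw [mem_union, mem_sd]
    by_cases hex : ∃ t, l ∈ D t
    · obtain ⟨t, ht⟩ := hex
      have huniq : ∀ t', l ∈ D t' → t' = t := by
        intro t' ht'
        by_contra hne
        exact Finset.disjoint_left.1 (hD t' t hne) ht' ht
      have h1 : ∀ i, l ∈ a i ∪ (W i).biUnion D ↔ t ∈ W i := by
        intro i
        rw [mem_union, mem_biUnion]
        constructor
        · rintro (h | ⟨t', ht', hl'⟩)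
          · exact absurd ht (Finset.disjoint_left.1 (ha i t) h)
          · rw [huniq t' hl'] at ht'
            exact ht'
        · intro h
          exact Or.inr ⟨t, h, ht⟩
      have h2 : l ∈ (sd A W).biUnion D ↔ t ∈ sd A W := by
        rw [mem_biUnion]
        constructor
        · rintro ⟨t', ht', hl'⟩
          rw [huniq t' hl'] at ht'
          exact ht'
        · intro h
          exact ⟨t, h, ht⟩
      have h3 : l ∉ sd A a := fun h => Finset.disjoint_left.1 (hdis t) h ht
      rw [h2, or_iff_right h3, mem_sd]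
      rw [Finset.filter_congr fun i _ => h1 i]
    · push Not at hex
      have h1 : ∀ i, l ∈ a i ∪ (W i).biUnion D ↔ l ∈ a i := by
        intro i
        rw [mem_union, mem_biUnion]
        constructor
        · rintro (h | ⟨t', _, hl'⟩)
          · exact h
          · exact absurd hl' (hex t')
        · exact Or.inl
      have h2 : ¬ l ∈ (sd A W).biUnion D := by
        rw [mem_biUnion]
        rintro ⟨t', _, hl'⟩
        exact hex t' hl'
      rw [or_iff_left h2, mem_sd]
      rw [Finset.filter_congr fun i _ => h1 i]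
  · intro j m x A A'
    exact sd_symmDiff x A A'
  · intro j j' m x B A
    exact sd_sd x B A
  · intro j m x i
    exact sd_singleton x i

end Pool.Agent.SMQ
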