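import Pool.Agent.Lib.MP_452a87_nt.SpecD

/-!
# Task D/FinD: the final theorem of part D (density of good subfields)
-/

set_option autoImplicit false

namespace Pool.Agent.SMQ

namespace FinDAux

lemma KX_le {m : ℕ} {κ : Type} (r : Fin m → ℂ) (x : κ → Finset (Fin m)) :
    KX r x ≤ IntermediateField.adjoin ℚ (Set.range r) := by
  unfold KX
  rw [IntermediateField.adjoin_le_iff]
  rintro _ ⟨i, rfl⟩
  show rho r (x i) ∈ IntermediateField.adjoin ℚ (Set.range r)
  unfold rho
  exact prod_mem fun l _ => IntermediateField.subset_adjoin ℚ _ ⟨l, rfl⟩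

open Classical in
/-- Counting the free tuples whose field belongs to a given set of fields. -/
lemma cnt {j m N : ℕ} (r : Fin m → ℂ)
    (hdeg : ∀ x : Fin j → Finset (Fin m), Module.finrank ℚ (KX r x) = 2 ^ j ↔ Fre x)
    (hN : ∀ x0 : Fin j → Finset (Fin m), Fre x0 →
      Set.ncard {x : Fin j → Finset (Fin m) | KX r x = KX r x0} = N)
    (Ks : Finset (IntermediateField ℚ ℂ))
    (hK : ∀ K ∈ Ks, ∃ x0 : Fin j → Finset (Fin m), Fre x0 ∧ K = KX r x0) :
    (Finset.univ.filter fun x : Fin j → Finset (Fin m) => Fre x ∧ KX r x ∈ Ks).card =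
      Ks.card * N := by
  have hmaps : ((Finset.univ.filter fun x : Fin j → Finset (Fin m) => Fre x ∧ KX r x ∈ Ks :
      Finset (Fin j → Finset (Fin m))) : Set (Fin j → Finset (Fin m))).MapsTo (KX r) Ks := by
    intro x hx
    have hx' := Finset.mem_coe.1 hx
    rw [Finset.mem_filter] at hx'
    exact Finset.mem_coe.2 hx'.2.2
  rw [Finset.card_eq_sum_card_fiberwise hmaps]
  rw [← smul_eq_mul, ← Finset.sum_const]
  refine Finset.sum_congr rfl fun K hKs => ?_
  obtain ⟨x0, hx0, rfl⟩ := hK K hKs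
  rw [← hN x0 hx0, ← Set.ncard_coe_finset]
  congr 1
  ext x
  constructor
  · intro hx
    have hx' := Finset.mem_coe.1 hx
    rw [Finset.mem_filter] at hx'
    exact hx'.2
  · intro hx
    have hx' : KX r x = KX r x0 := hx
    have hf : Fre x := by
      rw [← hdeg x, hx', hdeg x0]
      exact hx0
    refine Finset.mem_coe.2 ?_
    rw [Finset.mem_filter, Finset.mem_filter]
    refine ⟨⟨Finset.mem_univ _, hf, ?_⟩, hx'⟩
    rw [hx']
    exact hKs

end FinDAux

open FinDAux

open Classical in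
theorem pFinD (hDen : S_Den) (hFR : S_FR) (hFB : S_FB) (hFD : S_FD) (hFE : S_FE) (hFF : S_FF)
    (hFG : S_FG) : S_FinD := by
  intro j ε hε
  obtain ⟨N, hN1, hN⟩ := hFE j
  obtain ⟨m0, hm0⟩ := hDen j (ε / 2) (by positivity)
  refine ⟨max m0 (j + 1), fun m hm S hS hdeg L hL hα => ?_⟩
  have hm1 : m0 ≤ m := le_trans (le_max_left _ _) hm
  have hm2 : j + 1 ≤ m := le_trans (le_max_right _ _) hm
  obtain ⟨r, a, hra, hF⟩ := hFR m S hS hdeg
  rw [hF]
  have hfr : ∀ x : Fin j → Finset (Fin m), Module.finrank ℚ (KX r x) = 2 ^ j ↔ Fre x :=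
    fun x => (hFB j m r a x hra).2.1
  have hfin : ({K : IntermediateField ℚ ℂ | K ≤ IntermediateField.adjoin ℚ (Set.range r) ∧
      Module.finrank ℚ K = 2 ^ j}).Finite := by
    refine (Set.toFinite (Set.range fun x : Fin j → Finset (Fin m) => KX r x)).subset ?_
    rintro K ⟨hK1, hK2⟩
    obtain ⟨x, _, hx⟩ := hFD m j r a hra K hK1 hK2
    exact ⟨x, hx.symm⟩
  refine ⟨hfin, ?_⟩
  have hfin' : ({K : IntermediateField ℚ ℂ | K ≤ IntermediateField.adjoin ℚ (Set.range r) ∧
      Module.finrank ℚ K = 2 ^ j ∧ BadK (2 ^ j) L K}).Finite :=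
    hfin.subset fun K hK => ⟨hK.1, hK.2.1⟩
  have c1 := cnt r hfr (fun x0 h0 => hN m r a hra x0 h0) hfin.toFinset (by
    intro K hK
    rw [Set.Finite.mem_toFinset] at hK
    exact hFD m j r a hra K hK.1 hK.2)
  have c2 := cnt r hfr (fun x0 h0 => hN m r a hra x0 h0) hfin'.toFinset (by
    intro K hK
    rw [Set.Finite.mem_toFinset] at hK
    exact hFD m j r a hra K hK.1 hK.2.1)
  -- all free tuples are counted in `c1`
  have e1 : Set.ncard {x : Fin j → Finset (Fin m) | Fre x} = hfin.toFinset.card * N := by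
    rw [← c1, ← Set.ncard_coe_finset]
    congr 1
    ext x
    constructor
    · intro hx
      refine Finset.mem_coe.2 ?_
      rw [Finset.mem_filter]
      refine ⟨Finset.mem_univ _, hx, ?_⟩
      rw [Set.Finite.mem_toFinset]
      exact ⟨KX_le r x, (hfr x).2 hx⟩
    · intro hx
      have hx' := Finset.mem_coe.1 hx
      rw [Finset.mem_filter] at hx'
      exact hx'.2.1
  -- the tuples of `c2` are bad
  have e2 : hfin'.toFinset.card * N ≤
      Set.ncard {x : Fin j → Finset (Fin m) | BadT r L x} := by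
    rw [← c2, ← Set.ncard_coe_finset]
    refine Set.ncard_le_ncard ?_ (Set.toFinite _)
    intro x hx
    have hx' := Finset.mem_coe.1 hx
    rw [Finset.mem_filter, Set.Finite.mem_toFinset] at hx'
    obtain ⟨_, hfx, _, _, β, hβ, hb⟩ := hx'
    show BadT r L x
    by_contra hgood
    exact hb (hFG j m r a L x hra hα hfx hgood β hβ)
  have hd := hm0 m hm1 r a L hra hL
  have hf := hFF j m hm2
  rw [Set.ncard_eq_toFinset_card _ hfin, Set.ncard_eq_toFinset_card _ hfin']
  have hNpos : (0 : ℝ) < N := by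
    have : 0 < N := hN1
    exact_mod_cast this
  have e2' : ((hfin'.toFinset.card : ℕ) : ℝ) * N ≤
      (Set.ncard {x : Fin j → Finset (Fin m) | BadT r L x} : ℝ) := by
    exact_mod_cast e2
  have e1' : (Set.ncard {x : Fin j → Finset (Fin m) | Fre x} : ℝ) =
      ((hfin.toFinset.card : ℕ) : ℝ) * N := by
    rw [e1]
    push_cast
    ring
  rw [e1'] at hf
  have hchain : ((hfin'.toFinset.card : ℕ) : ℝ) * N ≤
      (ε * ((hfin.toFinset.card : ℕ) : ℝ)) * N := by
    calc ((hfin'.toFinset.card : ℕ) : ℝ) * N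
        ≤ ε / 2 * 2 ^ (j * m) := le_trans e2' hd
      _ ≤ ε / 2 * (2 * (((hfin.toFinset.card : ℕ) : ℝ) * N)) :=
          mul_le_mul_of_nonneg_left hf (by positivity)
      _ = (ε * ((hfin.toFinset.card : ℕ) : ℝ)) * N := by ring
  exact le_of_mul_le_mul_right hchain hNpos

end Pool.Agent.SMQ
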