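import Pool.Agent.Lib.MP_452a87_nt.SpecD

/-! MP_452a87_nt: proof of `S_Clo` (the closure induction). -/

set_option autoImplicit false

namespace Pool.Agent.SMQ

namespace CloAux

open Finset

theorem mem_sd {j : ℕ} {κ : Type} [Fintype κ] [DecidableEq κ] (A : Finset (Fin j))
    (x : Fin j → Finset κ) (l : κ) : l ∈ sd A x ↔ Odd (A.filter (fun i => l ∈ x i)).card := by
  unfold sd
  rw [mem_filter]
  exact and_iff_right (mem_univ l)

/-- The number of small subsets. -/
theorem card_small (k q : ℕ) :
    (univ.filter (fun w : Finset (Fin k) => w.card ≤ q)).card ≤ (k + 1) ^ q := by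
  classical
  have h1 : (univ.filter (fun w : Finset (Fin k) => w.card ≤ q)) ⊆
      (univ : Finset (Fin q → Option (Fin k))).image
        (fun f => univ.filter (fun t => ∃ i, f i = some t)) := by
    intro w hw
    have hw' : w.card ≤ q := (mem_filter.1 hw).2
    rw [mem_image]
    refine ⟨fun i => if h : (i : ℕ) < w.card then
      some (w.equivFin.symm ⟨i, h⟩ : Fin k) else none, mem_univ _, ?_⟩
    ext t
    rw [mem_filter]
    constructor
    · rintro ⟨_, i, hi⟩
      simp only at hi
      by_cases h : (i : ℕ) < w.card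
      · rw [dif_pos h] at hi
        have := Option.some.inj hi
        rw [← this]
        exact (w.equivFin.symm ⟨i, h⟩).2
      · rw [dif_neg h] at hi
        exact absurd hi (by simp)
    · intro ht
      refine ⟨mem_univ _, ⟨(w.equivFin ⟨t, ht⟩ : ℕ), lt_of_lt_of_le (w.equivFin ⟨t, ht⟩).2 hw'⟩, ?_⟩
      have h : ((w.equivFin ⟨t, ht⟩ : Fin w.card) : ℕ) < w.card := (w.equivFin ⟨t, ht⟩).2
      simp only
      rw [dif_pos h]
      simp
  calc _ ≤ _ := card_le_card h1
    _ ≤ (univ : Finset (Fin q → Option (Fin k))).card := card_image_le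
    _ = (k + 1) ^ q := by simp

/-- Separation of two nonempty sets. -/
theorem sep2 {j : ℕ} {A0 A : Finset (Fin j)} (h0 : A0.Nonempty) (hne : A ≠ A0) :
    ∃ u : Finset (Fin j), Odd (A0 ∩ u).card ∧ Even (A ∩ u).card := by
  by_cases h : A0 ⊆ A
  · obtain ⟨i, hi⟩ := h0
    have h2 : ∃ i' ∈ A, i' ∉ A0 := by
      by_contra hcon
      push Not at hcon
      exact hne (Finset.Subset.antisymm hcon h)
    obtain ⟨i', hi', hi0⟩ := h2
    have hii : i ≠ i' := by
      rintro rfl
      exact hi0 hi
    refine ⟨{i, i'}, ?_, ?_⟩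
    · have e : A0 ∩ {i, i'} = {i} := by
        ext s
        simp only [mem_inter, mem_insert, mem_singleton]
        constructor
        · rintro ⟨h1, h2 | h2⟩
          · exact h2
          · rw [h2] at h1
            exact absurd h1 hi0
        · intro h1
          rw [h1]
          exact ⟨hi, Or.inl rfl⟩
      rw [e, card_singleton]
      exact odd_one
    · have e : A ∩ {i, i'} = {i, i'} := by
        rw [inter_eq_right]
        intro s hs
        simp only [mem_insert, mem_singleton] at hs
        rcases hs with h1 | h1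
        · rw [h1]
          exact h hi
        · rw [h1]
          exact hi'
      rw [e, card_pair hii]
      exact even_two
  · rw [not_subset] at h
    obtain ⟨i, hi, hiA⟩ := h
    refine ⟨{i}, ?_, ?_⟩
    · have e : A0 ∩ {i} = {i} := by
        rw [inter_eq_right]
        exact singleton_subset_iff.2 hi
      rw [e, card_singleton]
      exact odd_one
    · have e : A ∩ {i} = ∅ := by
        rw [← disjoint_iff_inter_eq_empty]
        exact disjoint_singleton_right.2 hiA
      rw [e, card_empty]
      exact Even.zero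

theorem sep1 {j : ℕ} {A0 : Finset (Fin j)} (h0 : A0.Nonempty) :
    ∃ u : Finset (Fin j), Odd (A0 ∩ u).card := by
  obtain ⟨i, hi⟩ := h0
  refine ⟨{i}, ?_⟩
  have e : A0 ∩ {i} = {i} := by
    rw [inter_eq_right]
    exact singleton_subset_iff.2 hi
  rw [e, card_singleton]
  exact odd_one

/-- The choice of the tuple `W`. -/
theorem exW {j k : ℕ} (C : Finset (Finset (Fin j))) (hC : ∀ A ∈ C, A.Nonempty)
    (w : Finset (Fin k)) (A0 : Finset (Fin j)) (hA0 : A0 ∈ C) (hw : (C.erase A0).card ≤ w.card) :
    ∃ W : Fin j → Finset (Fin k), sd A0 W = w ∧ ∀ A ∈ C.erase A0, (sd A W).card < w.card := by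
  classical
  have h1 : Fintype.card {x // x ∈ C.erase A0} ≤ Fintype.card {x // x ∈ w} := by
    rw [Fintype.card_coe, Fintype.card_coe]
    exact hw
  obtain ⟨f⟩ := Function.Embedding.nonempty_of_card_le h1
  have h2 : ∀ t : Fin k, ∃ u : Finset (Fin j), (t ∈ w → Odd (A0 ∩ u).card) ∧
      (t ∉ w → u = ∅) ∧ ∀ A : {x // x ∈ C.erase A0}, (f A : Fin k) = t → Even (A.1 ∩ u).card := by
    intro t
    by_cases ht : t ∈ w
    · by_cases hex : ∃ A : {x // x ∈ C.erase A0}, (f A : Fin k) = t
      · obtain ⟨A, hA⟩ := hex
        obtain ⟨u, hu1, hu2⟩ := sep2 (hC A0 hA0) (Finset.ne_of_mem_erase A.2)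
        refine ⟨u, fun _ => hu1, fun h => absurd ht h, fun A' hA' => ?_⟩
        have h3 : A' = A := f.injective (Subtype.ext (by rw [hA', hA]))
        rw [h3]
        exact hu2
      · push Not at hex
        obtain ⟨u, hu⟩ := sep1 (hC A0 hA0)
        exact ⟨u, fun _ => hu, fun h => absurd ht h, fun A' hA' => absurd hA' (hex A')⟩
    · refine ⟨∅, fun h => absurd h ht, fun _ => rfl, fun A' hA' => ?_⟩
      rw [inter_empty, card_empty]
      exact Even.zero
  choose v hv1 hv2 hv3 using h2
  have hsd : ∀ (A : Finset (Fin j)) (t : Fin k),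
      t ∈ sd A (fun i => univ.filter (fun t => i ∈ v t)) ↔ Odd (A ∩ v t).card := by
    intro A t
    rw [mem_sd]
    have e : A.filter (fun i => t ∈ univ.filter (fun t => i ∈ v t)) = A ∩ v t := by
      ext i
      simp
    rw [e]
  refine ⟨fun i => univ.filter (fun t => i ∈ v t), ?_, ?_⟩
  · ext t
    rw [hsd]
    constructor
    · intro h
      by_contra ht
      rw [hv2 t ht, inter_empty, card_empty] at h
      exact absurd h (by decide)
    · intro h
      exact hv1 t h
  · intro A hA
    have hsub : sd A (fun i => univ.filter (fun t => i ∈ v t)) ⊆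
        w.erase (f ⟨A, hA⟩ : Fin k) := by
      intro t ht
      rw [hsd] at ht
      rw [mem_erase]
      refine ⟨?_, ?_⟩
      · rintro rfl
        have h3 := hv3 _ ⟨A, hA⟩ rfl
        exact (Nat.not_odd_iff_even.2 h3) ht
      · by_contra htw
        rw [hv2 t htw, inter_empty, card_empty] at ht
        exact absurd ht (by decide)
    calc _ ≤ _ := card_le_card hsub
      _ < w.card := card_erase_lt_of_mem (f ⟨A, hA⟩).2

end CloAux

open CloAux Finset in
theorem pClo : S_Clo := by
  classical
  intro j k cl hcl1 hcl2 hcl3 C hC hyp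
  set S : Finset (Finset (Fin j) × Finset (Fin k)) :=
    C ×ˢ (univ.filter (fun w : Finset (Fin k) => w.card + 1 < C.card)) with hS
  have hCc : C.card ≤ 2 ^ j := by
    calc C.card ≤ (univ : Finset (Finset (Fin j))).card := card_le_univ _
      _ = 2 ^ j := by simp
  refine ⟨S, ?_, ?_⟩
  · rw [hS, card_product]
    refine Nat.mul_le_mul hCc ?_
    refine le_trans (card_le_card ?_) (card_small k (2 ^ j))
    intro w hw
    rw [mem_filter] at hw ⊢
    exact ⟨mem_univ _, by omega⟩
  · have key : ∀ n : ℕ, ∀ w : Finset (Fin k), w.card = n → ∀ A ∈ C,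
        (A, w) ∈ cl (S : Set (Finset (Fin j) × Finset (Fin k))) := by
      intro n
      induction n using Nat.strong_induction_on with
      | _ n ih =>
        intro w hw A0 hA0
        by_cases hlt : w.card + 1 < C.card
        · apply hcl1
          rw [mem_coe, hS, mem_product, mem_filter]
          exact ⟨hA0, mem_univ _, hlt⟩
        · have h1 : (C.erase A0).card ≤ w.card := by
            rw [card_erase_of_mem hA0]
            omega
          obtain ⟨W, hW1, hW2⟩ := exW C hC w A0 hA0 h1
          have h2 := hyp W A0 hA0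
          rw [hW1] at h2
          apply hcl3
          refine hcl2 _ _ ?_ h2
          rintro q ⟨A, hA, rfl⟩
          exact ih (sd A W).card (by rw [← hw]; exact hW2 A hA) (sd A W) rfl A
            (mem_of_mem_erase hA)
    intro A hA w
    exact key w.card w rfl A hA

end Pool.Agent.SMQ
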