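import Pool.Agent.Lib.MP_452a87_nt.SpecD

/-!
# 452a87, D/Den: the density theorem
-/

set_option autoImplicit false

namespace Pool.Agent.SMQ

namespace DenM

/-- The tuples for which `C` is a circuit. -/
private def Cs {m : ℕ} (r : Fin m → ℂ) (L : ℂ) {j : ℕ} (C : Finset (Finset (Fin j))) :
    Set (Fin j → Finset (Fin m)) :=
  {x | C.Nonempty ∧ (∀ A ∈ C, A.Nonempty) ∧
      ∀ A0 ∈ C, IsAlgebraic (IntermediateField.adjoin ℚ
        ((fun A => ths r L (sd A x)) '' ((C.erase A0 : Finset (Finset (Fin j))) : Set (Finset (Fin j)))))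
        (ths r L (sd A0 x))}

private lemma card_C (j : ℕ) : (Finset.univ : Finset (Finset (Finset (Fin j)))).card = 2 ^ (2 ^ j) := by
  rw [Finset.card_univ, Fintype.card_finset, Fintype.card_finset, Fintype.card_fin]

private lemma exists_large {X I : Type} [Fintype X] [Fintype I] (B : Set X) (F : I → Set X)
    (h : ∀ x ∈ B, ∃ i, x ∈ F i) (y : ℝ) (hI : Nonempty I)
    (hy : y * Fintype.card I < (B.ncard : ℝ)) : ∃ i, y ≤ ((F i).ncard : ℝ) := by
  classical
  by_contra hcon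
  push Not at hcon
  have h1 : B.ncard ≤ ∑ i, (F i).ncard := by
    have h2 : B ⊆ ((Finset.univ.biUnion fun i => (F i).toFinset : Finset X) : Set X) := by
      intro x hx
      obtain ⟨i, hi⟩ := h x hx
      rw [Finset.mem_coe, Finset.mem_biUnion]
      exact ⟨i, Finset.mem_univ i, Set.mem_toFinset.mpr hi⟩
    refine (Set.ncard_le_ncard h2 (Finset.finite_toSet _)).trans ?_
    rw [Set.ncard_coe_finset]
    refine Finset.card_biUnion_le.trans (le_of_eq ?_)
    exact Finset.sum_congr rfl fun i _ => (Set.ncard_eq_toFinset_card' (F i)).symm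
  have h3 : (B.ncard : ℝ) ≤ ∑ i, ((F i).ncard : ℝ) := by exact_mod_cast h1
  have h4 : ∑ i, ((F i).ncard : ℝ) < ∑ _i : I, y :=
    Finset.sum_lt_sum_of_nonempty (Finset.univ_nonempty) fun i _ => hcon i
  rw [Finset.sum_const, Finset.card_univ, nsmul_eq_mul] at h4
  linarith

end DenM

open DenM in
theorem pDen (h1 : S_HJt) (h2 : S_Ci2) (h3 : S_NumD) (h4 : S_DenC) : S_Den := by
  classical
  intro j δ hδ
  obtain ⟨k, hk⟩ := h3 j
  obtain ⟨m0, hm0⟩ := h1 j (2 * k) (δ / 2 ^ (2 ^ j)) (by positivity)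
  refine ⟨m0, fun m hm r a L hr hL => ?_⟩
  by_contra hcon
  rw [not_le] at hcon
  obtain ⟨C, hC⟩ := exists_large {x : Fin j → Finset (Fin m) | BadT r L x} (fun C => Cs r L C) (by
    intro x hx
    obtain ⟨C, hC1, hC2, hC3⟩ := h2 j (fun A => ths r L (sd A x)) hx
    exact ⟨C, hC1, hC2, hC3⟩) (δ / 2 ^ (2 ^ j) * 2 ^ (j * m)) inferInstance (by
    have h5 := card_C j
    rw [Finset.card_univ] at h5
    rw [h5]
    refine lt_of_le_of_lt (le_of_eq ?_) hcon
    push_cast
    field_simp)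
  obtain ⟨D, b, hD, hDd, hbD, hall⟩ := hm0 m hm (Cs r L C) hC
  have h6 := hall (fun _ => ∅)
  obtain ⟨W, A0, hA0, hW⟩ := h4 j k m r a L C D b hk hr hL h6.1 h6.2.1 hD hDd hbD
  exact hW ((hall W).2.2 A0 hA0)

end Pool.Agent.SMQ
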