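import Pool.Agent.Lib.MP_452a87_nt.SpecD

/-!
# 452a87, D/DenC: a full cube of tuples with the same circuit is impossible
-/

set_option autoImplicit false

namespace Pool.Agent.SMQ

namespace DenCM

private lemma alg_mono {K K' : IntermediateField ℚ ℂ} (h : K ≤ K') {x : ℂ} (hx : IsAlgebraic K x) :
    IsAlgebraic K' x := by
  let _ : Algebra K K' := (IntermediateField.inclusion h).toRingHom.toAlgebra
  have : IsScalarTower K K' ℂ := IsScalarTower.of_algebraMap_eq fun _ => rfl
  exact hx.tower_top K'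

private lemma alg_trans {K : IntermediateField ℚ ℂ} {S : Set ℂ} (hS : ∀ s ∈ S, IsAlgebraic K s)
    {x : ℂ} (hx : IsAlgebraic (IntermediateField.adjoin ℚ S) x) : IsAlgebraic K x := by
  have h1 : IntermediateField.adjoin ℚ S ≤ (algebraicClosure K ℂ).restrictScalars ℚ := by
    rw [IntermediateField.adjoin_le_iff]
    intro s hs
    exact mem_algebraicClosure_iff.mpr (hS s hs)
  have h2 : IsAlgebraic ((algebraicClosure K ℂ).restrictScalars ℚ) x := alg_mono h1 hx
  have h3 : IsAlgebraic (algebraicClosure K ℂ) x := h2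
  exact h3.restrictScalars K

end DenCM

open DenCM in
theorem pDenC (h1 : S_LTD) (h2 : S_TrE) (h3 : S_TrU) (h4 : S_Clo) (h5 : S_Pos) (h6 : S_Sdd) :
    S_DenC := by
  classical
  intro j k m r a0 L C D a hnum hr hL hC hCne hD hDd haD
  by_contra hcon
  push Not at hcon
  let g : Finset (Fin j) × Finset (Fin (2 * k)) → ℂ := fun q =>
    ths r L (sd q.1 a ∪ q.2.biUnion D)
  have hg : ∀ (W : Fin j → Finset (Fin (2 * k))) (A : Finset (Fin j)),
      ths r L (sd A (fun i => a i ∪ (W i).biUnion D)) = g (A, sd A W) := by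
    intro W A
    rw [(h6.1 j (2 * k) m D a W A hDd haD).1]
  let cl : Set (Finset (Fin j) × Finset (Fin (2 * k))) →
      Set (Finset (Fin j) × Finset (Fin (2 * k))) := fun S =>
    {q | IsAlgebraic (IntermediateField.adjoin ℚ (g '' S)) (g q)}
  have hmem : ∀ S q, q ∈ cl S ↔ IsAlgebraic (IntermediateField.adjoin ℚ (g '' S)) (g q) :=
    fun S q => Iff.rfl
  have p1 : ∀ S, S ⊆ cl S := by
    intro S q hq
    rw [hmem]
    exact isAlgebraic_algebraMap
      (⟨g q, IntermediateField.subset_adjoin ℚ _ ⟨q, hq, rfl⟩⟩ : IntermediateField.adjoin ℚ (g '' S))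
  have p2 : ∀ S S', S ⊆ S' → cl S ⊆ cl S' := by
    intro S S' h q hq
    rw [hmem] at hq ⊢
    exact alg_mono (IntermediateField.adjoin.mono ℚ _ _ (Set.image_mono h)) hq
  have p3 : ∀ S, cl (cl S) ⊆ cl S := by
    intro S q hq
    rw [hmem] at hq ⊢
    refine alg_trans ?_ hq
    rintro _ ⟨q', hq', rfl⟩
    exact (hmem S q').mp hq'
  obtain ⟨S, hScard, hS⟩ := h4 j (2 * k) cl p1 p2 p3 C hCne (by
    intro W A0 hA0
    rw [hmem, ← hg W A0]
    have h := hcon W A0 hA0
    have himg : g '' {q | ∃ A ∈ C.erase A0, q = (A, sd A W)} =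
        (fun A => ths r L (sd A (fun i => a i ∪ (W i).biUnion D))) ''
          ((C.erase A0 : Finset (Finset (Fin j))) : Set (Finset (Fin j))) := by
      ext z
      constructor
      · rintro ⟨q, ⟨A, hA, rfl⟩, rfl⟩
        exact ⟨A, hA, hg W A⟩
      · rintro ⟨A, hA, rfl⟩
        exact ⟨(A, sd A W), ⟨A, hA, rfl⟩, (hg W A).symm⟩
    rw [himg]
    exact h)
  obtain ⟨A, hA⟩ := hC
  have hr0 : ∀ l, r l ≠ 0 := by
    intro l h0
    apply hr.2 {l} (Finset.singleton_nonempty l)
    have h7 := hr.1 l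
    rw [h0] at h7
    have h8 : a0 l = 0 := by
      have : (a0 l : ℂ) = 0 := by rw [← h7]; norm_num
      exact_mod_cast this
    rw [Finset.prod_singleton, h8]
    exact ⟨0, by norm_num⟩
  have hL' : rho r (sd A a) * L ≠ 0 :=
    mul_ne_zero (Finset.prod_ne_zero_iff.mpr fun l _ => hr0 l) hL
  obtain ⟨T, b, hb, hT⟩ := h5 m k r a0 D hr hD hDd
  have hdisj : ∀ w : Finset (Fin (2 * k)), Disjoint (sd A a) (w.biUnion D) := by
    intro w
    rw [Finset.disjoint_biUnion_right]
    intro t _
    exact (h6.1 j (2 * k) m D a (fun _ => ∅) A hDd haD).2 t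
  have halg : ∀ X : Finset (Fin k), IsAlgebraic (IntermediateField.adjoin ℚ
      (Set.range (fun q : S => g q))) (th b (rho r (sd A a) * L) X) := by
    intro X
    have h7 := (hmem _ _).mp (hS A hA (X.biUnion T))
    have hrange : Set.range (fun q : S => g q) =
        g '' (S : Set (Finset (Fin j) × Finset (Fin (2 * k)))) := by
      ext z
      constructor
      · rintro ⟨q, rfl⟩
        exact ⟨q, q.2, rfl⟩
      · rintro ⟨q, hq, rfl⟩
        exact ⟨⟨q, hq⟩, rfl⟩
    rw [hrange]
    have h8 : g (A, X.biUnion T) =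
        Complex.exp (rho r (sd A a) * rho r ((X.biUnion T).biUnion D) * L) := by
      change Complex.exp (rho r (sd A a ∪ (X.biUnion T).biUnion D) * L) = _
      rw [rho, Finset.prod_union (hdisj _)]
      rfl
    rcases hT X with h9 | h9
    · have h10 : th b (rho r (sd A a) * L) X = g (A, X.biUnion T) := by
        rw [h8, h9, th]
        congr 1
        ring
      rw [h10]
      exact h7
    · have h10 : th b (rho r (sd A a) * L) X = (g (A, X.biUnion T))⁻¹ := by
        rw [h8, h9, th, ← Complex.exp_neg]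
        congr 1
        ring
      rw [h10]
      exact h7.inv
  obtain ⟨t, ht⟩ := h2 (Finset (Fin k)) ℂ (th b (rho r (sd A a) * L))
  have h7 := h3 (Finset (Fin k)) S ℂ (th b (rho r (sd A a) * L)) (fun q : S => g q) t ht halg
  rw [Nat.card_eq_fintype_card, Fintype.card_coe] at h7
  have h8 := h1 k t b (rho r (sd A a) * L) hb hL' ht
  have h9 : 4 * (t + 2) ^ 2 ≤ 4 * (2 ^ j * (2 * k + 1) ^ (2 ^ j) + 2) ^ 2 := by
    apply Nat.mul_le_mul_left
    apply Nat.pow_le_pow_left
    omega
  omega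

end Pool.Agent.SMQ
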