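import Pool.Agent.Lib.MP_452a87_nt.SpecD

/-!
# Part D: most tuples are free (FF)
-/

set_option autoImplicit false

namespace Pool.Agent.SMQ

namespace FFAux

lemma card_split {j : ℕ} (A : Finset (Fin j)) (i0 : Fin j) (h : i0 ∈ A) (p : Fin j → Prop)
    [DecidablePred p] :
    (A.filter p).card = ((A.erase i0).filter p).card + (if p i0 then 1 else 0) := by
  conv_lhs => rw [← Finset.insert_erase h]
  rw [Finset.filter_insert]
  split_ifs with hp
  · rw [Finset.card_insert_of_notMem]
    intro hc
    exact Finset.notMem_erase i0 A (Finset.mem_filter.mp hc).1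
  · rw [add_zero]

lemma mem_iff {j m : ℕ} (A : Finset (Fin j)) (i0 : Fin j) (h : i0 ∈ A)
    (x : Fin j → Finset (Fin m)) (hx : sd A x = ∅) (l : Fin m) :
    l ∈ x i0 ↔ Odd ((A.erase i0).filter (fun i => l ∈ x i)).card := by
  have h1 : ¬ Odd (A.filter (fun i => l ∈ x i)).card := by
    intro hc
    have h2 : l ∈ sd A x := Finset.mem_filter.mpr ⟨Finset.mem_univ _, hc⟩
    rw [hx] at h2
    exact Finset.notMem_empty _ h2
  rw [card_split A i0 h] at h1
  constructor
  · intro h3
    rw [if_pos h3] at h1
    by_contra h4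
    rw [Nat.not_odd_iff_even] at h4
    exact h1 (h4.add_one)
  · intro h3
    by_contra h4
    rw [if_neg h4, add_zero] at h1
    exact h1 h3

lemma inj {j m : ℕ} (A : Finset (Fin j)) (i0 : Fin j) (h : i0 ∈ A)
    (x y : Fin j → Finset (Fin m)) (hx : sd A x = ∅) (hy : sd A y = ∅)
    (hxy : ∀ i, i ≠ i0 → x i = y i) : x = y := by
  funext i
  by_cases hi : i = i0
  · subst hi
    ext l
    rw [mem_iff A i h x hx l, mem_iff A i h y hy l]
    have e : (A.erase i).filter (fun i => l ∈ x i) = (A.erase i).filter (fun i => l ∈ y i) := by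
      apply Finset.filter_congr
      intro k hk
      rw [hxy k (Finset.ne_of_mem_erase hk)]
    rw [e]
  · exact hxy i hi

lemma card_zero_le {k m : ℕ} (A : Finset (Fin (k + 1))) (hA : A.Nonempty) :
    (Finset.univ.filter (fun x : Fin (k + 1) → Finset (Fin m) => sd A x = ∅)).card ≤
      (2 ^ m) ^ k := by
  classical
  obtain ⟨i0, h0⟩ := hA
  have hc : Fintype.card ({i : Fin (k + 1) // i ≠ i0} → Finset (Fin m)) = (2 ^ m) ^ k := by
    rw [Fintype.card_fun, Fintype.card_finset, Fintype.card_fin]
    congr 1
    rw [Fintype.card_subtype_compl, Fintype.card_fin, Fintype.card_subtype_eq]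
    rfl
  rw [← hc, ← Finset.card_univ]
  refine Finset.card_le_card_of_injOn
    (fun x => fun i : {i : Fin (k + 1) // i ≠ i0} => x i.1) (fun _ _ => Finset.mem_coe.mpr (Finset.mem_univ _)) ?_
  intro x hx y hy hxy
  have hx' : sd A x = ∅ := (Finset.mem_filter.mp hx).2
  have hy' : sd A y = ∅ := (Finset.mem_filter.mp hy).2
  exact inj A i0 h0 x y hx' hy' fun i hi => congrFun hxy ⟨i, hi⟩

end FFAux

open FFAux in
theorem pFF : S_FF := by
  classical
  intro j m hjm
  have e1 : {x : Fin j → Finset (Fin m) | Fre x} =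
      ((Finset.univ.filter (fun x : Fin j → Finset (Fin m) => Fre x) :
        Finset (Fin j → Finset (Fin m))) : Set (Fin j → Finset (Fin m))) := by
    ext x
    simp
  rw [e1, Set.ncard_coe_finset]
  have e2 : (Finset.univ.filter (fun x : Fin j → Finset (Fin m) => Fre x)).card +
      (Finset.univ.filter (fun x : Fin j → Finset (Fin m) => ¬ Fre x)).card = 2 ^ (j * m) := by
    rw [Finset.card_filter_add_card_filter_not, Finset.card_univ, Fintype.card_fun,
      Fintype.card_finset, Fintype.card_fin, Fintype.card_fin, ← pow_mul, mul_comm]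
  have e3 : 2 * (Finset.univ.filter (fun x : Fin j → Finset (Fin m) => ¬ Fre x)).card ≤
      2 ^ (j * m) := by
    rcases j with _ | k
    · have e4 : Finset.univ.filter (fun x : Fin 0 → Finset (Fin m) => ¬ Fre x) = ∅ := by
        apply Finset.filter_eq_empty_iff.mpr
        intro x _ hx
        apply hx
        intro A hA
        obtain ⟨i, -⟩ := hA
        exact i.elim0
      rw [e4]
      simp
    · have e5 : Finset.univ.filter (fun x : Fin (k + 1) → Finset (Fin m) => ¬ Fre x) ⊆
          (Finset.univ.filter (fun A : Finset (Fin (k + 1)) => A.Nonempty)).biUnion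
            (fun A => Finset.univ.filter
              (fun x : Fin (k + 1) → Finset (Fin m) => sd A x = ∅)) := by
        intro x hx
        have hx' : ¬ Fre x := (Finset.mem_filter.mp hx).2
        unfold Fre at hx'
        push Not at hx'
        obtain ⟨A, hA, hAx⟩ := hx'
        rw [Finset.mem_biUnion]
        exact ⟨A, Finset.mem_filter.mpr ⟨Finset.mem_univ _, hA⟩,
          Finset.mem_filter.mpr ⟨Finset.mem_univ _, hAx⟩⟩
      have e6 : (Finset.univ.filter
          (fun x : Fin (k + 1) → Finset (Fin m) => ¬ Fre x)).card ≤ 2 ^ (k + 1) * (2 ^ m) ^ k := by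
        refine (Finset.card_le_card e5).trans ?_
        refine (Finset.card_biUnion_le_card_mul _ _ _
          (fun A hA => card_zero_le A (Finset.mem_filter.mp hA).2)).trans ?_
        refine Nat.mul_le_mul_right _ ?_
        refine (Finset.card_le_univ _).trans ?_
        rw [Fintype.card_finset, Fintype.card_fin]
      calc 2 * (Finset.univ.filter
          (fun x : Fin (k + 1) → Finset (Fin m) => ¬ Fre x)).card
          ≤ 2 * (2 ^ (k + 1) * (2 ^ m) ^ k) := Nat.mul_le_mul_left _ e6
        _ = 2 ^ (k + 1 + 1) * (2 ^ m) ^ k := by ring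
        _ ≤ 2 ^ m * (2 ^ m) ^ k :=
          Nat.mul_le_mul_right _ (Nat.pow_le_pow_right (by norm_num) hjm)
        _ = 2 ^ ((k + 1) * m) := by
          rw [← pow_mul, ← pow_add]
          congr 1
          ring
  have e7 : 2 ^ (j * m) ≤
      2 * (Finset.univ.filter (fun x : Fin j → Finset (Fin m) => Fre x)).card := by
    omega
  exact_mod_cast e7

end Pool.Agent.SMQ
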