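import Pool.Agent.Lib.MP_452a87_nt.SpecD

/-!
# MP_452a87_nt, D/HJk: density Hales-Jewett in all dimensions (helper82)
-/

set_option autoImplicit false

namespace Pool.Agent.SMQ

open Pool.Agent.Lib.MP_9f2731_nt.GP.Dhj in
/-- **HJk.** -/
theorem pHJk : S_HJk := by
  have aPar := pPar pFib
  have aStr := pStr pDim aPar
  have aPt := pPt pOne pNin
  have aCmp := pCmp pNin aPt
  have aFnd := pFnd aPt aCmp
  have aGsp := pGsp pNin aPt aCmp aFnd pFlk
  have aInc := pInc pDim aStr aGsp
  have aIte := pIte aInc
  have h1 : ∀ k : ℕ, HJ (k + 1) := by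
    intro k
    induction k with
    | zero => exact pBse.2
    | succ k ih => exact pMul _ (aIte (k + 1) (by omega) ih)
  intro k
  rcases k with _ | k
  · exact pBse.1
  · exact h1 k

end Pool.Agent.SMQ
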