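import Pool.Agent.Lib.MP_452a87_nt.SpecD

/-! MP_452a87_nt: proof of `S_HJt` (density Hales-Jewett for tuples of sets). -/

set_option autoImplicit false

namespace Pool.Agent.SMQ

namespace HJtAux

open Finset Pool.Agent.Lib.MP_9f2731_nt.GP.Dhj

/-- Words with letters in `Fin (2 ^ j)` are tuples of sets. -/
noncomputable def tup {j m : ℕ} (e : Finset (Fin j) ≃ Fin (2 ^ j)) :
    (Fin m → Fin (2 ^ j)) ≃ (Fin j → Finset (Fin m)) where
  toFun y := fun i => univ.filter (fun l => i ∈ e.symm (y l))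
  invFun x := fun l => e (univ.filter (fun i => l ∈ x i))
  left_inv := by
    intro y
    funext l
    have h : (univ.filter fun i => l ∈ univ.filter fun l => i ∈ e.symm (y l)) = e.symm (y l) := by
      ext i
      simp
    show e (univ.filter fun i => l ∈ univ.filter fun l => i ∈ e.symm (y l)) = y l
    rw [h, Equiv.apply_symm_apply]
  right_inv := by
    intro x
    funext i
    ext l
    show l ∈ univ.filter (fun l => i ∈ e.symm (e (univ.filter (fun i => l ∈ x i)))) ↔ l ∈ x i
    simp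

theorem mem_tup {j m : ℕ} (e : Finset (Fin j) ≃ Fin (2 ^ j)) (y : Fin m → Fin (2 ^ j)) (i : Fin j)
    (l : Fin m) : l ∈ tup e y i ↔ i ∈ e.symm (y l) := by
  show l ∈ univ.filter (fun l => i ∈ e.symm (y l)) ↔ _
  simp

theorem pr_tup {j m : ℕ} (e : Finset (Fin j) ≃ Fin (2 ^ j)) (𝒜 : Set (Fin j → Finset (Fin m))) :
    pr (fun y : Fin m → Fin (2 ^ j) => tup e y ∈ 𝒜) = (𝒜.ncard : ℝ) / 2 ^ (j * m) := by
  classical
  unfold pr mn
  have h1 : (Fintype.card (Fin m → Fin (2 ^ j)) : ℝ) = 2 ^ (j * m) := by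
    rw [Fintype.card_fun, Fintype.card_fin, Fintype.card_fin, Nat.cast_pow, Nat.cast_pow,
      ← pow_mul]
    norm_num
  rw [h1]
  have h2 : ∑ x : Fin m → Fin (2 ^ j), (if tup e x ∈ 𝒜 then (1 : ℝ) else 0) =
      ∑ x : Fin j → Finset (Fin m), (if x ∈ 𝒜 then (1 : ℝ) else 0) :=
    Equiv.sum_comp (tup e) (fun x => if x ∈ 𝒜 then (1 : ℝ) else 0)
  rw [h2, Finset.sum_boole, Set.ncard_eq_toFinset_card']
  have h3 : (univ.filter fun x => x ∈ 𝒜) = 𝒜.toFinset := by
    ext x
    simp
  rw [h3]

end HJtAux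

open HJtAux Finset Pool.Agent.Lib.MP_9f2731_nt.GP.Dhj in
theorem pHJt (h1 : S_HJk) : S_HJt := by
  classical
  intro j k δ hδ
  obtain ⟨n, hn⟩ := h1 (2 ^ j) k δ hδ
  have e : Finset (Fin j) ≃ Fin (2 ^ j) := Fintype.equivFinOfCardEq (by simp)
  refine ⟨n, fun m hm 𝒜 h𝒜 => ?_⟩
  have hpr : δ ≤ pr (fun y : Fin m → Fin (2 ^ j) => tup e y ∈ 𝒜) := by
    rw [pr_tup, le_div_iff₀ (by positivity)]
    exact h𝒜
  obtain ⟨w, hw, hall⟩ := hn (Fin m) (by rw [Fintype.card_fin]; exact hm) _ hpr
  refine ⟨fun t => univ.filter (fun l => w l = Sum.inr t),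
    fun i => univ.filter (fun l => ∃ c, w l = Sum.inl c ∧ i ∈ e.symm c), ?_, ?_, ?_, ?_⟩
  · intro t
    obtain ⟨l, hl⟩ := hw t
    exact ⟨l, by simp [hl]⟩
  · intro t t' hne
    rw [Finset.disjoint_left]
    intro l hl hl'
    have a1 := (mem_filter.1 hl).2
    have a2 := (mem_filter.1 hl').2
    rw [a1] at a2
    exact hne (Sum.inr.inj a2)
  · intro i t
    rw [Finset.disjoint_left]
    intro l hl hl'
    obtain ⟨c, hc, _⟩ := (mem_filter.1 hl).2
    have a2 := (mem_filter.1 hl').2
    rw [hc] at a2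
    exact absurd a2 (by simp)
  · intro W
    have h2 := hall (fun t => e (univ.filter (fun i => t ∈ W i)))
    have h3 : tup e (sub w (fun t => e (univ.filter (fun i => t ∈ W i)))) =
        fun i => univ.filter (fun l => ∃ c, w l = Sum.inl c ∧ i ∈ e.symm c) ∪
          (W i).biUnion (fun t => univ.filter (fun l => w l = Sum.inr t)) := by
      funext i
      ext l
      rw [mem_tup, mem_union, mem_biUnion]
      unfold sub
      rcases hwl : w l with c | t
      · rw [mem_filter]
        constructor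
        · intro h
          exact Or.inl ⟨mem_univ _, c, hwl, h⟩
        · rintro (⟨_, c', hc', h⟩ | ⟨t, _, ht⟩)
          · rw [hwl] at hc'
            rw [Sum.inl.inj hc']
            exact h
          · have := (mem_filter.1 ht).2
            rw [hwl] at this
            exact absurd this (by simp)
      · rw [Sum.elim_inr, Equiv.symm_apply_apply, mem_filter, mem_filter]
        constructor
        · rintro ⟨_, h⟩
          exact Or.inr ⟨t, h, by simp [hwl]⟩
        · rintro (⟨_, c', hc', _⟩ | ⟨t', ht', ht⟩)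
          · rw [hwl] at hc'
            exact absurd hc' (by simp)
          · have h5 := (mem_filter.1 ht).2
            rw [hwl] at h5
            rw [Sum.inr.inj h5]
            exact ⟨mem_univ _, ht'⟩
    rw [h3] at h2
    exact h2

end Pool.Agent.SMQ
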