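import Pool.Agent.Lib.MP_452a87_nt.SpecD

/-!
# MP_452a87_nt, D/NumD: a numerical choice (helper82)
-/

set_option autoImplicit false

namespace Pool.Agent.SMQ

/-- **NumD.** -/
theorem pNumD : S_NumD := by
  intro j
  obtain ⟨q, hq⟩ : ∃ q : ℕ, q = 2 ^ j := ⟨_, rfl⟩
  obtain ⟨m, hm⟩ : ∃ m : ℕ, m = 4 * q + 2 * j + 3 := ⟨_, rfl⟩
  refine ⟨2 ^ (2 * m), ?_⟩
  rw [← hq]
  have h1 : m + 1 ≤ 2 ^ m := Nat.lt_two_pow_self
  have h2 : 4 * q * (m + 1) + 2 * j + 4 ≤ 2 ^ (2 * m) := by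
    have h3 : (m + 1) * (m + 1) ≤ 2 ^ (2 * m) := by
      rw [two_mul, pow_add]
      exact Nat.mul_le_mul h1 h1
    refine le_trans ?_ h3
    have h4 : m + 1 = 4 * q + 2 * j + 4 := by omega
    have h5 : (m + 1) * (m + 1) = (4 * q + 2 * j + 4) * (m + 1) := by rw [← h4]
    rw [h5]
    have h6 : (2 * j + 4) * 1 ≤ (2 * j + 4) * (m + 1) := Nat.mul_le_mul_left _ (by omega)
    have h7 : (4 * q + 2 * j + 4) * (m + 1) = 4 * q * (m + 1) + (2 * j + 4) * (m + 1) := by ring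
    omega
  have h3 : 2 * 2 ^ (2 * m) + 1 ≤ 2 ^ (2 * m + 2) := by
    have h4 : 1 ≤ 2 ^ (2 * m) := Nat.one_le_two_pow
    rw [pow_add]
    omega
  have h4 : q * (2 * 2 ^ (2 * m) + 1) ^ q + 2 ≤ 2 ^ (j + (2 * m + 2) * q + 1) := by
    have h5 : (2 * 2 ^ (2 * m) + 1) ^ q ≤ 2 ^ ((2 * m + 2) * q) := by
      rw [pow_mul 2 (2 * m + 2) q]
      exact Nat.pow_le_pow_left h3 q
    have h6 : q * (2 * 2 ^ (2 * m) + 1) ^ q ≤ 2 ^ (j + (2 * m + 2) * q) := by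
      rw [pow_add, ← hq]
      exact Nat.mul_le_mul_left q h5
    have h7 : 2 ≤ 2 ^ (j + (2 * m + 2) * q) := by
      have h8 : 1 ≤ j + (2 * m + 2) * q := by
        have h9 : 1 ≤ q := by
          rw [hq]
          exact Nat.one_le_two_pow
        have : 1 * 1 ≤ (2 * m + 2) * q := Nat.mul_le_mul (by omega) h9
        omega
      calc 2 = 2 ^ 1 := rfl
        _ ≤ _ := Nat.pow_le_pow_right (by norm_num) h8
    rw [pow_succ]
    omega
  calc 4 * (q * (2 * 2 ^ (2 * m) + 1) ^ q + 2) ^ 2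
      ≤ 4 * (2 ^ (j + (2 * m + 2) * q + 1)) ^ 2 :=
        Nat.mul_le_mul_left 4 (Nat.pow_le_pow_left h4 2)
    _ = 2 ^ (2 + (j + (2 * m + 2) * q + 1) * 2) := by
        rw [pow_add 2 2, pow_mul 2 (j + (2 * m + 2) * q + 1) 2]
        norm_num
    _ ≤ 2 ^ 2 ^ (2 * m) := by
        refine Nat.pow_le_pow_right (by norm_num) (le_trans (le_of_eq ?_) h2)
        ring

end Pool.Agent.SMQ
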