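import Pool.Agent.Lib.MP_452a87_nt.SpecD

/-!
# 452a87, D/Pos: merging blocks of negative square
-/

set_option autoImplicit false

namespace Pool.Agent.SMQ

namespace PosM

private lemma prod_b {k m : ℕ} (X : Finset (Fin (2 * k))) (D : Fin (2 * k) → Finset (Fin m))
    (hd : ∀ t t', t ≠ t' → Disjoint (D t) (D t')) (a : Fin m → ℤ) :
    ∏ l ∈ X.biUnion D, a l = ∏ t ∈ X, ∏ l ∈ D t, a l :=
  Finset.prod_biUnion fun t _ t' _ h => hd t t' h

end PosM

open PosM in
theorem pPos : S_Pos := by
  classical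
  intro m k r a D hr hne hd
  let c : Fin (2 * k) → ℤ := fun t => ∏ l ∈ D t, a l
  have hc : ∀ t, c t ≠ 0 := by
    intro t h0
    apply hr.2 (D t) (hne t)
    change IsSquare (c t)
    rw [h0]
    exact ⟨0, by norm_num⟩
  let e0 : Fin k → Fin (2 * k) := fun i => ⟨2 * i, by omega⟩
  let e1 : Fin k → Fin (2 * k) := fun i => ⟨2 * i + 1, by omega⟩
  have he : ∀ i, e0 i ≠ e1 i := by
    intro i h
    have := congrArg Fin.val h
    simp only [e0, e1] at this
    omega
  let T : Fin k → Finset (Fin (2 * k)) := fun i =>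
    if 0 < c (e0 i) then {e0 i} else if 0 < c (e1 i) then {e1 i} else {e0 i, e1 i}
  have hTmem : ∀ i t, t ∈ T i → (t : ℕ) / 2 = i := by
    intro i t ht
    simp only [T] at ht
    split_ifs at ht
    · rw [Finset.mem_singleton] at ht
      subst ht
      simp only [e0]
      omega
    · rw [Finset.mem_singleton] at ht
      subst ht
      simp only [e1]
      omega
    · rw [Finset.mem_insert, Finset.mem_singleton] at ht
      rcases ht with ht | ht
      · subst ht
        simp only [e0]
        omega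
      · subst ht
        simp only [e1]
        omega
  have hTne : ∀ i, (T i).Nonempty := by
    intro i
    simp only [T]
    split_ifs
    · exact Finset.singleton_nonempty _
    · exact Finset.singleton_nonempty _
    · exact Finset.insert_nonempty _ _
  have hTd : ∀ i i', i ≠ i' → Disjoint (T i) (T i') := by
    intro i i' h
    rw [Finset.disjoint_left]
    intro t h1 h2
    apply h
    have h3 := hTmem i t h1
    have h4 := hTmem i' t h2
    exact Fin.ext (by omega)
  have hpos : ∀ i, 0 < ∏ t ∈ T i, c t := by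
    intro i
    simp only [T]
    split_ifs with h1 h2
    · rw [Finset.prod_singleton]
      exact h1
    · rw [Finset.prod_singleton]
      exact h2
    · rw [Finset.prod_pair (he i)]
      have h3 : c (e0 i) < 0 := lt_of_le_of_ne (not_lt.mp h1) (hc _)
      have h4 : c (e1 i) < 0 := lt_of_le_of_ne (not_lt.mp h2) (hc _)
      exact mul_pos_of_neg_of_neg h3 h4
  let b : Fin k → ℕ := fun i => (∏ t ∈ T i, c t).toNat
  have hb : ∀ i, (b i : ℤ) = ∏ t ∈ T i, c t := fun i => Int.toNat_of_nonneg (hpos i).le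
  have hprod : ∀ X : Finset (Fin k), ∏ l ∈ (X.biUnion T).biUnion D, a l =
      ((∏ i ∈ X, b i : ℕ) : ℤ) := by
    intro X
    rw [prod_b _ D hd a, Finset.prod_biUnion fun i _ i' _ h => hTd i i' h, Nat.cast_prod]
    exact Finset.prod_congr rfl fun i _ => (hb i).symm
  refine ⟨T, b, ?_, ?_⟩
  · intro X hX hsq
    obtain ⟨s, hs⟩ := hsq
    have hY : ((X.biUnion T).biUnion D).Nonempty := by
      obtain ⟨i, hi⟩ := hX
      obtain ⟨t, ht⟩ := hTne i
      obtain ⟨l, hl⟩ := hne t
      exact ⟨l, Finset.mem_biUnion.mpr ⟨t, Finset.mem_biUnion.mpr ⟨i, hi, ht⟩, hl⟩⟩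
    apply hr.2 _ hY
    rw [hprod X, hs]
    exact ⟨(s : ℤ), by push_cast; ring⟩
  · intro X
    apply sq_eq_sq_iff_eq_or_eq_neg.mp
    have h1 : rho r ((X.biUnion T).biUnion D) ^ 2 =
        ((∏ l ∈ (X.biUnion T).biUnion D, a l : ℤ) : ℂ) := by
      rw [rho, ← Finset.prod_pow, Int.cast_prod]
      exact Finset.prod_congr rfl fun l _ => hr.1 l
    have h2 : (mu b X : ℝ) ^ 2 = ((∏ i ∈ X, b i : ℕ) : ℝ) := by
      rw [mu, ← Finset.prod_pow, Nat.cast_prod]
      exact Finset.prod_congr rfl fun i _ => Real.sq_sqrt (Nat.cast_nonneg _)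
    rw [h1, hprod X, ← Complex.ofReal_pow, h2]
    push_cast
    rfl

end Pool.Agent.SMQ
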